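import Pool.Agent.Lib.MP_70e206_co.Construct

set_option autoImplicit false
set_option linter.unusedSectionVars false

namespace Pool.Agent.Lib.UF74

open Finset Pool.Agent.Lib.MP_70e206_co

variable {T G : Type} [Fintype T] [DecidableEq T] [Fintype G] [DecidableEq G]

/-- The set `A` placed in the copy of the ground set named by the label `t`. -/
def emb (t : T) (A : Finset G) : Finset (T × G) := {t} ×ˢ A

lemma mem_emb (t s : T) (A : Finset G) (x : G) : (s, x) ∈ emb t A ↔ s = t ∧ x ∈ A := by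
  rw [emb, Finset.mem_product, Finset.mem_singleton]

lemma emb_ne {t s : T} {A B : Finset G} (h : A ≠ B) : emb t A ≠ emb s B := by
  intro e
  apply h
  ext x
  constructor
  · intro hx
    have : (t, x) ∈ emb s B := e ▸ (mem_emb t t A x).2 ⟨rfl, hx⟩
    exact ((mem_emb s t B x).1 this).2
  · intro hx
    have : (s, x) ∈ emb t A := e ▸ (mem_emb s s B x).2 ⟨rfl, hx⟩
    exact ((mem_emb t s A x).1 this).2

lemma emb_symm (t : T) (B C : Finset G) :
    symmDiff (emb t B) (emb t C) = emb t (symmDiff B C) := by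
  ext ⟨s, x⟩
  simp only [Finset.mem_symmDiff, mem_emb]
  tauto

lemma emb_nonempty (t : T) {Z : Finset G} (h : Z.Nonempty) : (emb t Z).Nonempty := by
  obtain ⟨x, hx⟩ := h
  exact ⟨(t, x), (mem_emb t t Z x).2 ⟨rfl, hx⟩⟩

/-- Kept at one level: on the hash of its own label, and free of kernel words of every label. -/
def kp {r : ℕ} (S : Finset T) (ω : Om (T × G) r) (t : T) (A : Finset G) : Prop :=
  sat ω (chi (emb t A)) ∧ ∀ s ∈ S, ∀ Z ∈ A.powerset, Z.Nonempty → ¬ sat ω (zeta (emb s Z))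

instance {r : ℕ} (S : Finset T) (ω : Om (T × G) r) (t : T) (A : Finset G) :
    Decidable (kp S ω t A) := by
  unfold kp; infer_instance

lemma kp_cancel {r : ℕ} {S : Finset T} {ω : Om (T × G) r} {s t : T} {A B C : Finset G}
    (hA : kp S ω s A) (hB : kp S ω t B) (hC : kp S ω t C) (ht : t ∈ S) (h : A ∪ B = A ∪ C) :
    B = C := by
  by_contra hne
  refine hA.2 t ht (symmDiff B C) (Finset.mem_powerset.mpr ?_)
    (Finset.symmDiff_nonempty.mpr hne) ?_
  · intro x hx
    have h1 : x ∈ A ∪ B ↔ x ∈ A ∪ C := by rw [h]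
    simp only [Finset.mem_union, Finset.mem_symmDiff] at h1 hx
    tauto
  · intro j
    rw [← emb_symm, ← chi_add, dotProduct_add, hB.1 j, hC.1 j, add_zero]

lemma cnt_kp (r : ℕ) (S : Finset T) (t : T) (A : Finset G)
    (h : 2 * S.card * 2 ^ A.card ≤ 2 ^ r) :
    Fintype.card (Om (T × G) r) * (1 / 2 : ℝ) ^ r / 2
      ≤ ((univ.filter (fun ω : Om (T × G) r => kp S ω t A)).card : ℝ) := by
  have hsub : univ.filter (fun ω : Om (T × G) r => sat ω (chi (emb t A))) ⊆
      univ.filter (fun ω : Om (T × G) r => kp S ω t A) ∪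
        (S ×ˢ A.powerset.filter (fun Z => Z.Nonempty)).biUnion
          (fun z => univ.filter (fun ω : Om (T × G) r =>
            sat ω (chi (emb t A)) ∧ sat ω (zeta (emb z.1 z.2)))) := by
    intro ω hω
    have h1 := (Finset.mem_filter.mp hω).2
    by_cases hk : kp S ω t A
    · exact Finset.mem_union_left _ (Finset.mem_filter.mpr ⟨Finset.mem_univ _, hk⟩)
    · refine Finset.mem_union_right _ ?_
      unfold kp at hk
      push Not at hk
      obtain ⟨s, hs, Z, hZ, hZn, hZs⟩ := hk h1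
      exact Finset.mem_biUnion.mpr ⟨(s, Z),
        Finset.mem_product.mpr ⟨hs, Finset.mem_filter.mpr ⟨hZ, hZn⟩⟩,
        Finset.mem_filter.mpr ⟨Finset.mem_univ _, h1, hZs⟩⟩
  have h2 := (Finset.card_le_card hsub).trans
    ((Finset.card_union_le _ _).trans (Nat.add_le_add_left Finset.card_biUnion_le _))
  have h3 : ((univ.filter (fun ω : Om (T × G) r => sat ω (chi (emb t A)))).card : ℝ) ≤
      (univ.filter (fun ω : Om (T × G) r => kp S ω t A)).card +
      ∑ z ∈ S ×ˢ A.powerset.filter (fun Z => Z.Nonempty),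
        ((univ.filter (fun ω : Om (T × G) r =>
          sat ω (chi (emb t A)) ∧ sat ω (zeta (emb z.1 z.2)))).card : ℝ) := by
    exact_mod_cast h2
  rw [cnt1, Finset.sum_congr rfl (fun z hz => cnt2 r (emb t A)
    (emb_nonempty z.1 (Finset.mem_filter.mp (Finset.mem_product.mp hz).2).2)),
    Finset.sum_const, nsmul_eq_mul] at h3
  have h4 : ((S ×ˢ A.powerset.filter (fun Z => Z.Nonempty)).card : ℝ) ≤ S.card * 2 ^ A.card := by
    have := (Finset.card_filter_le A.powerset (fun Z => Z.Nonempty))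
    rw [Finset.card_powerset] at this
    rw [Finset.card_product]
    exact_mod_cast Nat.mul_le_mul_left _ this
  have h5 : (S.card : ℝ) * 2 ^ A.card * (1 / 2) ^ r ≤ 1 / 2 := by
    have h' : (2 : ℝ) * S.card * 2 ^ A.card ≤ 2 ^ r := by exact_mod_cast h
    have e : (2 : ℝ) ^ r * (1 / 2) ^ r = 1 := by rw [← mul_pow]; norm_num
    have p : (0 : ℝ) ≤ (1 / 2) ^ r := by positivity
    nlinarith [mul_le_mul_of_nonneg_right h' p]
  have h6 : (0 : ℝ) ≤ Fintype.card (Om (T × G) r) * ((1 / 2 : ℝ) ^ r) ^ 2 := by positivity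
  have h7 := mul_le_mul_of_nonneg_right h4 h6
  have h9 : (0 : ℝ) ≤ Fintype.card (Om (T × G) r) * (1 / 2 : ℝ) ^ r := by positivity
  have h8 : (S.card : ℝ) * 2 ^ A.card * (Fintype.card (Om (T × G) r) * ((1 / 2 : ℝ) ^ r) ^ 2)
      ≤ Fintype.card (Om (T × G) r) * (1 / 2 : ℝ) ^ r / 2 := by
    calc _ = (S.card * 2 ^ A.card * (1 / 2 : ℝ) ^ r) *
          (Fintype.card (Om (T × G) r) * (1 / 2 : ℝ) ^ r) := by ring
      _ ≤ (1 / 2) * (Fintype.card (Om (T × G) r) * (1 / 2 : ℝ) ^ r) :=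
          mul_le_mul_of_nonneg_right h5 h9
      _ = _ := by ring
  linarith

/-- Even cover: every point lies in an even number of the four sets. -/
def par (A B C D : Finset G) : Prop := chi A + chi B + chi C + chi D = 0

instance (A B C D : Finset G) : Decidable (par A B C D) := by unfold par; infer_instance

lemma par_iff (A B C D : Finset G) : par A B C D ↔
    ∀ x, ((x ∈ A ↔ x ∈ B) ↔ (x ∈ C ↔ x ∈ D)) := by
  constructor
  · intro h x
    have h2 := congrFun h (some x)
    simp only [chi, Pi.add_apply, Option.elim, Pi.zero_apply] at h2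
    by_cases e1 : x ∈ A <;> by_cases e2 : x ∈ B <;> by_cases e3 : x ∈ C <;>
      by_cases e4 : x ∈ D <;> simp only [e1, e2, e3, e4, if_true, if_false] at h2 ⊢ <;>
      first
        | exact absurd h2 (by decide)
        | simp
  · intro h
    funext o
    cases o with
    | none => simp only [chi, Pi.add_apply, Option.elim, Pi.zero_apply]; decide
    | some x =>
      have h2 := h x
      simp only [chi, Pi.add_apply, Option.elim, Pi.zero_apply]
      by_cases e1 : x ∈ A <;> by_cases e2 : x ∈ B <;> by_cases e3 : x ∈ C <;>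
        by_cases e4 : x ∈ D <;> simp only [e1, e2, e3, e4, if_true, if_false] at h2 ⊢ <;>
        first
          | decide
          | simp at h2

/-- An even cover by four different non-empty sets lives in one copy. -/
lemma par_emb {a b c d : T} {A B C D : Finset G} (h : par (emb a A) (emb b B) (emb c C) (emb d D))
    (nA : A.Nonempty) (nB : B.Nonempty) (nC : C.Nonempty) (nD : D.Nonempty)
    (hAB : A ≠ B) (hAC : A ≠ C) (hAD : A ≠ D) :
    (a = b ∧ a = c ∧ a = d) ∧ par A B C D := by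
  rw [par_iff] at h
  have h' : ∀ s x, (((s = a ∧ x ∈ A) ↔ (s = b ∧ x ∈ B)) ↔
      ((s = c ∧ x ∈ C) ↔ (s = d ∧ x ∈ D))) := by
    intro s x
    have := h (s, x)
    simpa only [mem_emb] using this
  have key : a = b ∧ a = c ∧ a = d := by
    obtain ⟨xa, ha⟩ := nA
    obtain ⟨xb, hb⟩ := nB
    obtain ⟨xc, hc⟩ := nC
    obtain ⟨xd, hd⟩ := nD
    by_cases e1 : a = b <;> by_cases e2 : a = c <;> by_cases e3 : a = d
    · exact ⟨e1, e2, e3⟩
    · exfalso
      subst e1; subst e2
      have := h' d xd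
      have e3' : ¬ d = a := fun e => e3 e.symm
      simp [e3', hd] at this
    · exfalso
      subst e1; subst e3
      have := h' c xc
      have e2' : ¬ c = a := fun e => e2 e.symm
      simp [e2', hc] at this
    · exfalso
      subst e1
      apply hAB
      ext x
      have := h' a x
      simpa [e2, e3] using this
    · exfalso
      subst e2; subst e3
      have := h' b xb
      have e1' : ¬ b = a := fun e => e1 e.symm
      simp [e1', hb] at this
    · exfalso
      subst e2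
      apply hAC
      ext x
      have := h' a x
      simp only [e1, e3, true_and, false_and] at this
      tauto
    · exfalso
      subst e3
      apply hAD
      ext x
      have := h' a x
      simp only [e1, e2, true_and, false_and] at this
      tauto
    · exfalso
      have := h' a xa
      simp [e1, e2, e3, ha] at this
  refine ⟨key, ?_⟩
  obtain ⟨e1, e2, e3⟩ := key
  subst e1; subst e2; subst e3
  rw [par_iff]
  intro x
  simpa using h' a x

lemma cnt2' {X : Type} [Fintype X] [DecidableEq X] (r : ℕ) {A B : Finset X} (h : A ≠ B) :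
    ((univ.filter (fun ω : Om X r => sat ω (chi A) ∧ sat ω (chi B))).card : ℝ)
      ≤ Fintype.card (Om X r) * ((1 / 2 : ℝ) ^ r) ^ 2 := by
  rw [← cnt2 r A (Finset.symmDiff_nonempty.mpr h)]
  exact_mod_cast Finset.card_le_card (fun ω hω => by
    simp only [Finset.mem_filter, Finset.mem_univ, true_and] at hω ⊢
    refine ⟨hω.1, fun j => ?_⟩
    rw [← chi_add, dotProduct_add, hω.1 j, hω.2 j, add_zero])

/-- The nine shapes of a colliding quadruple. -/
def sh (i : Fin 9) (q : Finset G × Finset G × Finset G × Finset G) : Prop :=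
  match i with
  | 0 => True
  | 1 => par q.1 q.2.1 q.2.2.1 q.2.2.2
  | 2 => q.1 = q.2.2.1
  | 3 => q.1 = q.2.2.2
  | 4 => q.2.1 = q.2.2.1
  | 5 => q.2.1 = q.2.2.2
  | 6 => q.1 = q.2.2.1 ∧ q.2.1 = q.2.2.2
  | 7 => q.1 = q.2.2.2 ∧ q.2.1 = q.2.2.1
  | 8 => q.1 = q.2.1 ∧ q.1 = q.2.2.1 ∧ q.1 = q.2.2.2

noncomputable def co (τ Φ : ℝ) (i : Fin 9) : ℝ :=
  match i with
  | 0 => τ ^ 4
  | 1 => τ ^ 3 / Φ
  | 2 => τ ^ 3
  | 3 => τ ^ 3
  | 4 => τ ^ 3
  | 5 => τ ^ 3
  | 6 => τ ^ 2
  | 7 => τ ^ 2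
  | 8 => τ

lemma co_nonneg {τ Φ : ℝ} (h : 0 ≤ τ) (h' : 1 ≤ Φ) (i : Fin 9) : 0 ≤ co τ Φ i := by
  have : 0 ≤ Φ := by linarith
  fin_cases i <;> simp only [co] <;> positivity

lemma all_eq {A C D : Finset G} (hC : C.card = A.card) (hD : D.card = A.card)
    (h : A ∪ A = C ∪ D) : A = C ∧ A = D := by
  rw [Finset.union_self] at h
  exact ⟨(Finset.eq_of_subset_of_card_le (h ▸ Finset.subset_union_left) hC.ge).symm,
    (Finset.eq_of_subset_of_card_le (h ▸ Finset.subset_union_right) hD.ge).symm⟩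

/-- The chance that the four labelled sets of a colliding quadruple all pass the hash. -/
lemma cnt_four (r k : ℕ) (hk : 0 < k) (Φ : ℝ) (hΦ : 1 ≤ Φ) (a b c d : T) (A B C D : Finset G)
    (kA : A.card = k) (kB : B.card = k) (kC : C.card = k) (kD : D.card = k)
    (hU : A ∪ B = C ∪ D) :
    ∃ i : Fin 9, sh i (A, B, C, D) ∧
      ((univ.filter (fun ω : Om (T × G) r => sat ω (chi (emb a A)) ∧ sat ω (chi (emb b B)) ∧
        sat ω (chi (emb c C)) ∧ sat ω (chi (emb d D)))).card : ℝ)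
      ≤ Fintype.card (Om (T × G) r) * (co ((1 / 2 : ℝ) ^ r) Φ i *
        (if a = b ∧ a = c ∧ a = d then Φ else 1)) := by
  have hΦ0 : 0 < Φ := by linarith
  have one : (1 : ℝ) ≤ (if a = b ∧ a = c ∧ a = d then Φ else 1) := by split_ifs <;> linarith
  have up : ∀ (i : Fin 9) (x : ℝ), x ≤ Fintype.card (Om (T × G) r) * co ((1 / 2 : ℝ) ^ r) Φ i →
      x ≤ Fintype.card (Om (T × G) r) * (co ((1 / 2 : ℝ) ^ r) Φ i *
        (if a = b ∧ a = c ∧ a = d then Φ else 1)) := by
    intro i x hx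
    refine hx.trans (mul_le_mul_of_nonneg_left ?_ (Nat.cast_nonneg _))
    exact le_mul_of_one_le_right (co_nonneg (by positivity) hΦ i) one
  have sub : ∀ (p : Om (T × G) r → Prop) [DecidablePred p],
      (∀ ω, sat ω (chi (emb a A)) → sat ω (chi (emb b B)) → sat ω (chi (emb c C)) →
        sat ω (chi (emb d D)) → p ω) →
      ((univ.filter (fun ω : Om (T × G) r => sat ω (chi (emb a A)) ∧ sat ω (chi (emb b B)) ∧
        sat ω (chi (emb c C)) ∧ sat ω (chi (emb d D)))).card : ℝ) ≤ (univ.filter p).card := by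
    intro p _ hp
    exact_mod_cast Finset.card_le_card (fun ω hω => by
      simp only [Finset.mem_filter, Finset.mem_univ, true_and] at hω ⊢
      exact hp ω hω.1 hω.2.1 hω.2.2.1 hω.2.2.2)
  by_cases hAB : A = B
  · subst hAB
    obtain ⟨e1, e2⟩ := all_eq (kC.trans kA.symm) (kD.trans kA.symm) hU
    refine ⟨8, ⟨rfl, e1, e2⟩, up 8 _ ?_⟩
    exact (sub _ (fun ω h _ _ _ => h)).trans (cnt1 r (emb a A)).le
  by_cases hCD : C = D
  · subst hCD
    obtain ⟨e1, e2⟩ := all_eq (kA.trans kC.symm) (kB.trans kC.symm) hU.symm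
    exact absurd (e1.symm.trans e2) hAB
  by_cases hAC : A = C
  · by_cases hBD : B = D
    · refine ⟨6, ⟨hAC, hBD⟩, up 6 _ ?_⟩
      exact (sub _ (fun ω h h' _ _ => ⟨h, h'⟩)).trans (cnt2' r (emb_ne hAB))
    · refine ⟨2, hAC, up 2 _ ?_⟩
      exact (sub _ (fun ω h h' _ h'' => ⟨h, h', h''⟩)).trans
        (cnt3 r (emb_ne hAB) (emb_ne (hAC ▸ hCD)) (emb_ne hBD)).le
  by_cases hAD : A = D
  · by_cases hBC : B = C
    · refine ⟨7, ⟨hAD, hBC⟩, up 7 _ ?_⟩
      exact (sub _ (fun ω h h' _ _ => ⟨h, h'⟩)).trans (cnt2' r (emb_ne hAB))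
    · refine ⟨3, hAD, up 3 _ ?_⟩
      exact (sub _ (fun ω h h' h'' _ => ⟨h, h', h''⟩)).trans
        (cnt3 r (emb_ne hAB) (emb_ne hAC) (emb_ne hBC)).le
  by_cases hBC : B = C
  · refine ⟨4, hBC, up 4 _ ?_⟩
    exact (sub _ (fun ω h h' _ h'' => ⟨h, h', h''⟩)).trans
      (cnt3 r (emb_ne hAB) (emb_ne hAD) (emb_ne (hBC ▸ hCD))).le
  by_cases hBD : B = D
  · refine ⟨5, hBD, up 5 _ ?_⟩
    exact (sub _ (fun ω h h' h'' _ => ⟨h, h', h''⟩)).trans
      (cnt3 r (emb_ne hAB) (emb_ne hAC) (emb_ne hBC)).le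
  by_cases hp : par (emb a A) (emb b B) (emb c C) (emb d D)
  · have ne : ∀ Z : Finset G, Z.card = k → Z.Nonempty := fun Z hZ =>
      Finset.card_pos.mp (hZ ▸ hk)
    obtain ⟨e, hp'⟩ := par_emb hp (ne A kA) (ne B kB) (ne C kC) (ne D kD) hAB hAC hAD
    refine ⟨1, hp', ?_⟩
    rw [if_pos e]
    have : co ((1 / 2 : ℝ) ^ r) Φ 1 * Φ = ((1 / 2 : ℝ) ^ r) ^ 3 := by
      simp only [co]; field_simp
    rw [this]
    exact (sub _ (fun ω h h' h'' _ => ⟨h, h', h''⟩)).trans
      (cnt3 r (emb_ne hAB) (emb_ne hAC) (emb_ne hBC)).le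
  · refine ⟨0, trivial, up 0 _ ?_⟩
    exact (cnt4 r (emb_ne hAB) (emb_ne hAC) (emb_ne hAD) (emb_ne hBC) (emb_ne hBD)
      (emb_ne hCD) hp).le

end Pool.Agent.Lib.UF74
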