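import Pool.Agent.Lib.UF74.A

set_option autoImplicit false
set_option linter.unusedSectionVars false
set_option synthInstance.maxSize 1024

namespace Pool.Agent.Lib.UF74

open Finset Pool.Agent.Lib.MP_70e206_co

variable {X Y : Type} [Fintype X] [DecidableEq X] [Fintype Y] [DecidableEq Y]

abbrev Q4 (X : Type) := Finset X × Finset X × Finset X × Finset X

noncomputable instance (i : Fin 9) : DecidablePred (sh (G := X) i) := fun _ => Classical.dec _

def js (a : W X Y) : Finset (X ⊕ Y) := a.1.disjSum a.2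

lemma js_inj {a b : W X Y} (h : js a = js b) : a = b := by
  refine Prod.ext ?_ ?_
  · ext x
    have : Sum.inl x ∈ js a ↔ Sum.inl x ∈ js b := by rw [h]
    simpa [js] using this
  · ext x
    have : Sum.inr x ∈ js a ↔ Sum.inr x ∈ js b := by rw [h]
    simpa [js] using this

lemma js_union {a b c d : W X Y} (h1 : a.1 ∪ b.1 = c.1 ∪ d.1) (h2 : a.2 ∪ b.2 = c.2 ∪ d.2) :
    js a ∪ js b = js c ∪ js d := by
  ext x
  cases x with
  | inl x =>
    have : x ∈ a.1 ∪ b.1 ↔ x ∈ c.1 ∪ d.1 := by rw [h1]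
    simpa [js] using this
  | inr x =>
    have : x ∈ a.2 ∪ b.2 ↔ x ∈ c.2 ∪ d.2 := by rw [h2]
    simpa [js] using this

lemma js_card {k m : ℕ} {a : W X Y} (h : a ∈ V0 X Y k m) : (js a).card = k + m := by
  simp only [V0, layer, Finset.mem_product, Finset.mem_powersetCard] at h
  rw [js, Finset.card_disjSum, h.1.2, h.2.2]

lemma sh_split (i : Fin 9) (a b c d : W X Y) (h : sh i (js a, js b, js c, js d)) :
    sh i (a.1, b.1, c.1, d.1) ∧ sh i (a.2, b.2, c.2, d.2) := by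
  fin_cases i
  · exact ⟨trivial, trivial⟩
  · simp only [sh, par_iff] at h ⊢
    exact ⟨fun x => by simpa [js] using h (Sum.inl x), fun x => by simpa [js] using h (Sum.inr x)⟩
  · simp only [sh] at h ⊢
    rw [js_inj h]; exact ⟨rfl, rfl⟩
  · simp only [sh] at h ⊢
    rw [js_inj h]; exact ⟨rfl, rfl⟩
  · simp only [sh] at h ⊢
    rw [js_inj h]; exact ⟨rfl, rfl⟩
  · simp only [sh] at h ⊢
    rw [js_inj h]; exact ⟨rfl, rfl⟩
  · simp only [sh] at h ⊢
    rw [js_inj h.1, js_inj h.2]; exact ⟨⟨rfl, rfl⟩, rfl, rfl⟩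
  · simp only [sh] at h ⊢
    rw [js_inj h.1, js_inj h.2]; exact ⟨⟨rfl, rfl⟩, rfl, rfl⟩
  · simp only [sh] at h ⊢
    rw [← js_inj h.1, ← js_inj h.2.1, ← js_inj h.2.2]; exact ⟨⟨rfl, rfl, rfl⟩, rfl, rfl, rfl⟩

noncomputable def ind (i : Fin 9) (q : Q4 X) : ℝ := if sh i q then 1 else 0

lemma ind_nonneg (i : Fin 9) (q : Q4 X) : 0 ≤ ind i q := by
  unfold ind; split_ifs <;> norm_num

lemma ind_le (i : Fin 9) (q : Q4 X) : ind i q ≤ 1 := by
  unfold ind; split_ifs <;> norm_num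

noncomputable def bs (τ Φ : ℝ) (q : Q4 X × Q4 Y) : ℝ := ∑ i, co τ Φ i * (ind i q.1 * ind i q.2)

noncomputable def psi (τ Φ : ℝ) (q : Q4 X × Q4 Y) : ℝ := bs τ Φ q * (1 + Φ * ind 8 q.1)

lemma bs_nonneg {τ Φ : ℝ} (h : 0 ≤ τ) (h' : 1 ≤ Φ) (q : Q4 X × Q4 Y) : 0 ≤ bs τ Φ q :=
  Finset.sum_nonneg fun i _ =>
    mul_nonneg (co_nonneg h h' i) (mul_nonneg (ind_nonneg _ _) (ind_nonneg _ _))

lemma psi_nonneg {τ Φ : ℝ} (h : 0 ≤ τ) (h' : 1 ≤ Φ) (q : Q4 X × Q4 Y) : 0 ≤ psi τ Φ q := by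
  have := ind_nonneg 8 q.1
  have h0 : 0 ≤ Φ := by linarith
  exact mul_nonneg (bs_nonneg h h' q) (by positivity)

/-- Number of colliding quadruples of a given shape. -/
noncomputable def cn (X : Type) [Fintype X] [DecidableEq X] (k : ℕ) (i : Fin 9) : ℝ :=
  (((quads X k).filter (sh i)).card : ℝ)

lemma cn_nonneg (k : ℕ) (i : Fin 9) : 0 ≤ cn X k i := Nat.cast_nonneg _

lemma sum_ind (k : ℕ) (i : Fin 9) : ∑ q ∈ quads X k, ind i q = cn X k i := by
  simp only [ind, cn, Finset.sum_boole]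

lemma cn8 (k : ℕ) : cn X k 8 ≤ (layer X k).card := by
  unfold cn
  refine Nat.cast_le.mpr (Finset.card_le_card_of_injOn (fun q => q.1) ?_ ?_)
  · intro q hq
    simp only [quads, Finset.coe_filter, Finset.mem_filter, Finset.mem_product,
      Set.mem_ofPred_eq] at hq
    exact hq.1.1.1
  · rintro ⟨a, b, c, d⟩ h1 ⟨a', b', c', d'⟩ h2 h
    simp only [Finset.coe_filter, Set.mem_ofPred_eq, sh] at h1 h2
    simp only at h
    obtain ⟨-, e1, e2, e3⟩ := h1
    obtain ⟨-, f1, f2, f3⟩ := h2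
    rw [← e1, ← e2, ← e3, ← f1, ← f2, ← f3, h]

lemma cn6 (k : ℕ) : cn X k 6 ≤ ((layer X k).card : ℝ) ^ 2 := by
  unfold cn
  rw [sq, ← Nat.cast_mul, ← Finset.card_product]
  refine Nat.cast_le.mpr (Finset.card_le_card_of_injOn (fun q => (q.1, q.2.1)) ?_ ?_)
  · intro q hq
    simp only [quads, Finset.coe_filter, Finset.mem_filter, Finset.mem_product,
      Set.mem_ofPred_eq] at hq
    exact Finset.mem_coe.mpr (Finset.mem_product.mpr ⟨hq.1.1.1, hq.1.1.2.1⟩)
  · rintro ⟨a, b, c, d⟩ h1 ⟨a', b', c', d'⟩ h2 h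
    simp only [Finset.coe_filter, Set.mem_ofPred_eq, sh] at h1 h2
    simp only [Prod.mk.injEq] at h
    obtain ⟨-, e1, e2⟩ := h1
    obtain ⟨-, f1, f2⟩ := h2
    rw [← e1, ← e2, ← f1, ← f2, h.1, h.2]

lemma cn7 (k : ℕ) : cn X k 7 ≤ ((layer X k).card : ℝ) ^ 2 := by
  unfold cn
  rw [sq, ← Nat.cast_mul, ← Finset.card_product]
  refine Nat.cast_le.mpr (Finset.card_le_card_of_injOn (fun q => (q.1, q.2.1)) ?_ ?_)
  · intro q hq
    simp only [quads, Finset.coe_filter, Finset.mem_filter, Finset.mem_product,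
      Set.mem_ofPred_eq] at hq
    exact Finset.mem_coe.mpr (Finset.mem_product.mpr ⟨hq.1.1.1, hq.1.1.2.1⟩)
  · rintro ⟨a, b, c, d⟩ h1 ⟨a', b', c', d'⟩ h2 h
    simp only [Finset.coe_filter, Set.mem_ofPred_eq, sh] at h1 h2
    simp only [Prod.mk.injEq] at h
    obtain ⟨-, e1, e2⟩ := h1
    obtain ⟨-, f1, f2⟩ := h2
    rw [← e1, ← e2, ← f1, ← f2, h.1, h.2]

/-- The weight of one level. -/
lemma level_sum (k m : ℕ) {τ Φ : ℝ} (h : 0 ≤ τ) (h' : 1 ≤ Φ) :
    ∑ q ∈ quads X k ×ˢ quads Y m, psi τ Φ q ≤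
      ∑ i, co τ Φ i * ((cn X k i + Φ * (layer X k).card) * cn Y m i) := by
  have h0 : 0 ≤ Φ := by linarith
  have e : ∀ q : Q4 X × Q4 Y, psi τ Φ q =
      ∑ i, co τ Φ i * ((ind i q.1 * (1 + Φ * ind 8 q.1)) * ind i q.2) := by
    intro q
    rw [psi, bs, Finset.sum_mul]
    exact Finset.sum_congr rfl fun i _ => by ring
  simp only [e]
  rw [Finset.sum_comm]
  refine Finset.sum_le_sum fun i _ => ?_
  rw [← Finset.mul_sum]
  refine mul_le_mul_of_nonneg_left ?_ (co_nonneg h h' i)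
  rw [Finset.sum_product' (f := fun (a : Q4 X) (b : Q4 Y) =>
    (ind i a * (1 + Φ * ind 8 a)) * ind i b), ← Finset.sum_mul_sum, sum_ind]
  refine mul_le_mul_of_nonneg_right ?_ (cn_nonneg m i)
  calc ∑ a ∈ quads X k, ind i a * (1 + Φ * ind 8 a)
      ≤ ∑ a ∈ quads X k, (ind i a + Φ * ind 8 a) := by
        refine Finset.sum_le_sum fun a _ => ?_
        have := mul_nonneg h0 (ind_nonneg 8 a)
        nlinarith [ind_le i a]
    _ = cn X k i + Φ * cn X k 8 := by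
        rw [Finset.sum_add_distrib, ← Finset.mul_sum, sum_ind, sum_ind]
    _ ≤ _ := by
        have := mul_le_mul_of_nonneg_left (cn8 (X := X) k) h0
        linarith

abbrev Wd (l : ℕ) (X Y : Type) := Fin (l + 1) → W X Y

abbrev Hs (l r : ℕ) (X Y : Type) := Fin (l + 1) → Om (Finset X × (X ⊕ Y)) r

/-- The label of a level is the first part of the level before it. -/
def lab {l : ℕ} (t0 : Finset X) (a : Wd l X Y) : Fin (l + 1) → Finset X :=
  Fin.cons t0 (fun i : Fin l => (a i.castSucc).1)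

def kw {l r : ℕ} (k : ℕ) (t0 : Finset X) (ω : Hs l r X Y) (a : Wd l X Y) : Prop :=
  ∀ j, kp (layer X k) (ω j) (lab t0 a j) (js (a j))

instance {l r : ℕ} (k : ℕ) (t0 : Finset X) (ω : Hs l r X Y) (a : Wd l X Y) :
    Decidable (kw k t0 ω a) := by
  unfold kw; infer_instance

def V1 (l : ℕ) (X Y : Type) [Fintype X] [DecidableEq X] [Fintype Y] [DecidableEq Y] (k m : ℕ) :
    Finset (Wd l X Y) := Fintype.piFinset (fun _ => V0 X Y k m)

def col {l : ℕ} (a b c d : Wd l X Y) : Prop :=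
  ∀ j, (a j).1 ∪ (b j).1 = (c j).1 ∪ (d j).1 ∧ (a j).2 ∪ (b j).2 = (c j).2 ∪ (d j).2

instance {l : ℕ} (a b c d : Wd l X Y) : Decidable (col a b c d) := by
  unfold col; infer_instance

lemma kw_cancel {l r k m : ℕ} {t0 : Finset X} (ht : t0 ∈ layer X k) {ω : Hs l r X Y}
    {a b c : Wd l X Y} (hbV : b ∈ V1 l X Y k m) (ha : kw k t0 ω a) (hb : kw k t0 ω b)
    (hc : kw k t0 ω c) (h : col a b a c) : b = c := by
  funext j
  induction j using Fin.induction with
  | zero =>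
    exact js_inj (kp_cancel (ha 0) (hb 0) (hc 0) ht (js_union (h 0).1 (h 0).2))
  | succ i ih =>
    have e : lab t0 c i.succ = lab t0 b i.succ := by
      simp only [lab, Fin.cons_succ, ih]
    have hm : lab t0 b i.succ ∈ layer X k := by
      simp only [lab, Fin.cons_succ]
      exact (Finset.mem_product.mp (Fintype.mem_piFinset.mp hbV i.castSucc)).1
    exact js_inj (kp_cancel (ha _) (hb _) (e ▸ hc i.succ) hm (js_union (h _).1 (h _).2))

lemma cnt_kw {l r k m : ℕ} (t0 : Finset X) (h : 2 * (layer X k).card * 2 ^ (k + m) ≤ 2 ^ r)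
    {a : Wd l X Y} (ha : a ∈ V1 l X Y k m) :
    (Fintype.card (Om (Finset X × (X ⊕ Y)) r) * (1 / 2 : ℝ) ^ r / 2) ^ (l + 1)
      ≤ ((univ.filter (fun ω : Hs l r X Y => kw k t0 ω a)).card : ℝ) := by
  have e : univ.filter (fun ω : Hs l r X Y => kw k t0 ω a) = Fintype.piFinset (fun j =>
      univ.filter (fun ω : Om (Finset X × (X ⊕ Y)) r =>
        kp (layer X k) ω (lab t0 a j) (js (a j)))) := by
    ext ω
    simp only [Finset.mem_filter, Finset.mem_univ, true_and, Fintype.mem_piFinset, kw]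
  rw [e, Fintype.card_piFinset, Nat.cast_prod, ← Fin.prod_const]
  refine Finset.prod_le_prod (fun j _ => by positivity) fun j _ => ?_
  refine cnt_kp r _ _ _ ?_
  rw [js_card (Fintype.mem_piFinset.mp ha j)]
  exact h

def sp {l : ℕ} (q : Wd l X Y × Wd l X Y × Wd l X Y × Wd l X Y) (j : Fin (l + 1)) : Q4 X × Q4 Y :=
  split (q.1 j, q.2.1 j, q.2.2.1 j, q.2.2.2 j)

lemma cnt_quad {l r k m : ℕ} (hk : 0 < k + m) (t0 : Finset X) {Φ : ℝ} (hΦ : 1 ≤ Φ)
    {a b c d : Wd l X Y} (ha : a ∈ V1 l X Y k m) (hb : b ∈ V1 l X Y k m)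
    (hc : c ∈ V1 l X Y k m) (hd : d ∈ V1 l X Y k m) (h : col a b c d) :
    ((univ.filter (fun ω : Hs l r X Y =>
      kw k t0 ω a ∧ kw k t0 ω b ∧ kw k t0 ω c ∧ kw k t0 ω d)).card : ℝ)
      ≤ (Fintype.card (Om (Finset X × (X ⊕ Y)) r) : ℝ) ^ (l + 1) *
        (Φ * ∏ j, psi ((1 / 2 : ℝ) ^ r) Φ (sp (a, b, c, d) j)) := by
  have hτ : (0 : ℝ) ≤ (1 / 2 : ℝ) ^ r := by positivity
  have h0 : 0 ≤ Φ := by linarith
  set E : Fin (l + 1) → ℝ := fun j => if lab t0 a j = lab t0 b j ∧ lab t0 a j = lab t0 c j ∧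
    lab t0 a j = lab t0 d j then Φ else 1 with hE
  have hE0 : ∀ j, 0 ≤ E j := fun j => by simp only [hE]; split_ifs <;> linarith
  have hE1 : ∀ j, E j ≤ Φ := fun j => by simp only [hE]; split_ifs <;> linarith
  have sub : univ.filter (fun ω : Hs l r X Y =>
      kw k t0 ω a ∧ kw k t0 ω b ∧ kw k t0 ω c ∧ kw k t0 ω d) ⊆ Fintype.piFinset (fun j =>
      univ.filter (fun ω : Om (Finset X × (X ⊕ Y)) r =>
        sat ω (chi (emb (lab t0 a j) (js (a j)))) ∧ sat ω (chi (emb (lab t0 b j) (js (b j)))) ∧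
        sat ω (chi (emb (lab t0 c j) (js (c j)))) ∧ sat ω (chi (emb (lab t0 d j) (js (d j)))))) := by
    intro ω hω
    simp only [Finset.mem_filter, Finset.mem_univ, true_and, Fintype.mem_piFinset] at hω ⊢
    exact fun j => ⟨(hω.1 j).1, (hω.2.1 j).1, (hω.2.2.1 j).1, (hω.2.2.2 j).1⟩
  have h1 := Finset.card_le_card sub
  rw [Fintype.card_piFinset] at h1
  refine (Nat.cast_le.mpr h1).trans ?_
  rw [Nat.cast_prod]
  have h2 : ∀ j, (((univ.filter (fun ω : Om (Finset X × (X ⊕ Y)) r =>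
        sat ω (chi (emb (lab t0 a j) (js (a j)))) ∧ sat ω (chi (emb (lab t0 b j) (js (b j)))) ∧
        sat ω (chi (emb (lab t0 c j) (js (c j)))) ∧
        sat ω (chi (emb (lab t0 d j) (js (d j)))))).card : ℕ) : ℝ) ≤
      Fintype.card (Om (Finset X × (X ⊕ Y)) r) *
        (bs ((1 / 2 : ℝ) ^ r) Φ (sp (a, b, c, d) j) * E j) := by
    intro j
    obtain ⟨i, hi, hle⟩ := cnt_four r (k + m) hk Φ hΦ (lab t0 a j) (lab t0 b j) (lab t0 c j)
      (lab t0 d j) (js (a j)) (js (b j)) (js (c j)) (js (d j))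
      (js_card (Fintype.mem_piFinset.mp ha j)) (js_card (Fintype.mem_piFinset.mp hb j))
      (js_card (Fintype.mem_piFinset.mp hc j)) (js_card (Fintype.mem_piFinset.mp hd j))
      (js_union (h j).1 (h j).2)
    refine hle.trans (mul_le_mul_of_nonneg_left
      (mul_le_mul_of_nonneg_right ?_ (hE0 j)) (Nat.cast_nonneg _))
    obtain ⟨s1, s2⟩ := sh_split i _ _ _ _ hi
    have e1 : ind i (sp (a, b, c, d) j).1 = 1 := if_pos s1
    have e2 : ind i (sp (a, b, c, d) j).2 = 1 := if_pos s2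
    have := Finset.single_le_sum (f := fun i => co ((1 / 2 : ℝ) ^ r) Φ i *
      (ind i (sp (a, b, c, d) j).1 * ind i (sp (a, b, c, d) j).2))
      (fun i _ => mul_nonneg (co_nonneg hτ hΦ i) (mul_nonneg (ind_nonneg _ _) (ind_nonneg _ _)))
      (Finset.mem_univ i)
    rw [e1, e2, mul_one, mul_one] at this
    exact this
  refine (Finset.prod_le_prod (fun j _ => Nat.cast_nonneg _) fun j _ => h2 j).trans ?_
  rw [Finset.prod_mul_distrib, Fin.prod_const]
  refine mul_le_mul_of_nonneg_left ?_ (by positivity)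
  simp only [psi]
  rw [Finset.prod_mul_distrib, Finset.prod_mul_distrib, mul_left_comm]
  refine mul_le_mul_of_nonneg_left ?_ (Finset.prod_nonneg fun j _ => bs_nonneg hτ hΦ _)
  have g1 : ∀ j, (1 : ℝ) ≤ 1 + Φ * ind 8 (sp (a, b, c, d) j).1 := fun j => by
    have := mul_nonneg h0 (ind_nonneg 8 (sp (a, b, c, d) j).1)
    linarith
  rw [Fin.prod_univ_succ, Fin.prod_univ_castSucc]
  have g2 : ∏ i : Fin l, E i.succ ≤
      ∏ i : Fin l, (1 + Φ * ind 8 (sp (a, b, c, d) i.castSucc).1) := by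
    refine Finset.prod_le_prod (fun j _ => hE0 _) fun j _ => ?_
    simp only [hE, lab, Fin.cons_succ]
    split_ifs with he
    · have : ind 8 (sp (a, b, c, d) j.castSucc).1 = 1 := if_pos he
      rw [this]; linarith
    · exact g1 _
  have g3 : 0 ≤ ∏ i : Fin l, E i.succ := Finset.prod_nonneg fun j _ => hE0 _
  exact mul_le_mul (hE1 0) (g2.trans (le_mul_of_one_le_right (g3.trans g2) (g1 _))) g3 h0

end Pool.Agent.Lib.UF74
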