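import Pool.Agent.Lib.UF74.B

set_option autoImplicit false
set_option linter.unusedSectionVars false
set_option synthInstance.maxSize 1024

namespace Pool.Agent.Lib.UF74

open Finset Pool.Agent.Lib.MP_70e206_co

variable {X Y : Type} [Fintype X] [DecidableEq X] [Fintype Y] [DecidableEq Y]

def UFw {l : ℕ} (F : Finset (Wd l X Y)) : Prop :=
  ∀ a ∈ F, ∀ b ∈ F, ∀ c ∈ F, ∀ d ∈ F, a ≠ b → c ≠ d → col a b c d →
    (a = c ∧ b = d) ∨ (a = d ∧ b = c)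

def Q1 (l : ℕ) (X Y : Type) [Fintype X] [DecidableEq X] [Fintype Y] [DecidableEq Y] (k m : ℕ) :
    Finset (Wd l X Y × Wd l X Y × Wd l X Y × Wd l X Y) :=
  (V1 l X Y k m ×ˢ V1 l X Y k m ×ˢ V1 l X Y k m ×ˢ V1 l X Y k m).filter (fun q =>
    (q.1 ≠ q.2.1 ∧ q.1 ≠ q.2.2.1 ∧ q.1 ≠ q.2.2.2 ∧ q.2.1 ≠ q.2.2.1 ∧
      q.2.1 ≠ q.2.2.2 ∧ q.2.2.1 ≠ q.2.2.2) ∧ col q.1 q.2.1 q.2.2.1 q.2.2.2)

lemma sp_inj {l : ℕ} : Function.Injective (sp (X := X) (Y := Y) (l := l)) := by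
  rintro ⟨a, b, c, d⟩ ⟨a', b', c', d'⟩ h
  have h' := fun j => split_inj (congrFun h j)
  simp only [Prod.mk.injEq] at h' ⊢
  exact ⟨funext fun j => (h' j).1, funext fun j => (h' j).2.1, funext fun j => (h' j).2.2.1,
    funext fun j => (h' j).2.2.2⟩

lemma sum_Q1 (l k m : ℕ) {τ Φ : ℝ} (h : 0 ≤ τ) (h' : 1 ≤ Φ) :
    ∑ q ∈ Q1 l X Y k m, ∏ j, psi τ Φ (sp q j) ≤
      (∑ q ∈ quads X k ×ˢ quads Y m, psi τ Φ q) ^ (l + 1) := by
  rw [← Fin.prod_const, Finset.prod_univ_sum,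
    ← Finset.sum_image (s := Q1 l X Y k m) (g := sp) (f := fun f => ∏ j, psi τ Φ (f j))
      (fun a _ b _ h => sp_inj h)]
  refine Finset.sum_le_sum_of_subset_of_nonneg ?_
    (fun f _ _ => Finset.prod_nonneg fun j _ => psi_nonneg h h' _)
  intro f hf
  obtain ⟨q, hq, rfl⟩ := Finset.mem_image.mp hf
  simp only [Q1, V1, V0, Finset.mem_filter, Finset.mem_product, Fintype.mem_piFinset] at hq
  obtain ⟨⟨h1, h2, h3, h4⟩, -, h5⟩ := hq
  rw [Fintype.mem_piFinset]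
  intro j
  simp only [sp, split, quads, Finset.mem_filter, Finset.mem_product]
  exact ⟨⟨⟨(h1 j).1, (h2 j).1, (h3 j).1, (h4 j).1⟩, (h5 j).1⟩,
    ⟨(h1 j).2, (h2 j).2, (h3 j).2, (h4 j).2⟩, (h5 j).2⟩

def Vw {l r : ℕ} (k m : ℕ) (t0 : Finset X) (ω : Hs l r X Y) : Finset (Wd l X Y) :=
  (V1 l X Y k m).filter (fun a => kw k t0 ω a)

def Qw {l r : ℕ} (k m : ℕ) (t0 : Finset X) (ω : Hs l r X Y) :
    Finset (Wd l X Y × Wd l X Y × Wd l X Y × Wd l X Y) :=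
  (Q1 l X Y k m).filter (fun q =>
    kw k t0 ω q.1 ∧ kw k t0 ω q.2.1 ∧ kw k t0 ω q.2.2.1 ∧ kw k t0 ω q.2.2.2)

lemma pick {l r : ℕ} (k m : ℕ) {t0 : Finset X} (ht : t0 ∈ layer X k) (ω : Hs l r X Y) (p : ℝ)
    (h0 : 0 ≤ p) (h1 : p ≤ 1) :
    ∃ F : Finset (Wd l X Y), UFw F ∧
      p * (Vw k m t0 ω).card - p ^ 4 * (Qw k m t0 ω).card ≤ F.card := by
  let b : (Wd l X Y × Wd l X Y × Wd l X Y × Wd l X Y) → Finset (Wd l X Y) :=
    fun q => {q.1, q.2.1, q.2.2.1, q.2.2.2}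
  obtain ⟨S, hS, hno, hc⟩ := deletion (Vw k m t0 ω) (Qw k m t0 ω) b
    (by
      intro q hq
      simp only [Qw, Q1, Finset.mem_filter, Finset.mem_product] at hq
      intro x hx
      simp only [b, Finset.mem_insert, Finset.mem_singleton] at hx
      simp only [Vw, Finset.mem_filter]
      rcases hx with rfl | rfl | rfl | rfl <;> tauto)
    (by intro q _; simp [b]) p h0 h1
  have hV : ∀ a ∈ S, a ∈ V1 l X Y k m ∧ kw k t0 ω a := fun a ha => Finset.mem_filter.mp (hS ha)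
  have hcan : ∀ a ∈ S, ∀ b ∈ S, ∀ c ∈ S, col a b a c → b = c := fun a ha b hb c hc h =>
    kw_cancel ht (hV b hb).1 (hV a ha).2 (hV b hb).2 (hV c hc).2 h
  have cL : ∀ {a b c d : Wd l X Y}, col a b c d → col b a c d := fun h j =>
    ⟨(Finset.union_comm _ _).trans (h j).1, (Finset.union_comm _ _).trans (h j).2⟩
  have cR : ∀ {a b c d : Wd l X Y}, col a b c d → col a b d c := fun h j =>
    ⟨(h j).1.trans (Finset.union_comm _ _), (h j).2.trans (Finset.union_comm _ _)⟩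
  refine ⟨S, ?_, ?_⟩
  · intro a ha b' hb c hc' d hd hab hcd hx
    by_cases hac : a = c
    · subst hac; exact Or.inl ⟨rfl, hcan a ha b' hb d hd hx⟩
    by_cases had : a = d
    · subst had
      exact Or.inr ⟨rfl, hcan a ha b' hb c hc' (cR hx)⟩
    by_cases hbc : b' = c
    · subst hbc
      exact absurd (hcan b' hb a ha d hd (cL hx)) had
    by_cases hbd : b' = d
    · subst hbd
      exact absurd (hcan b' hb a ha c hc' (cL (cR hx))) hac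
    exfalso
    refine hno (a, b', c, d) ?_ ?_
    · simp only [Qw, Q1, Finset.mem_filter, Finset.mem_product]
      exact ⟨⟨⟨(hV a ha).1, (hV b' hb).1, (hV c hc').1, (hV d hd).1⟩,
        ⟨hab, hac, had, hbc, hbd, hcd⟩, hx⟩,
        (hV a ha).2, (hV b' hb).2, (hV c hc').2, (hV d hd).2⟩
    · intro x hx
      simp only [b, Finset.mem_insert, Finset.mem_singleton] at hx
      rcases hx with rfl | rfl | rfl | rfl <;> assumption
  · have e2 : ∑ q ∈ Qw k m t0 ω, p ^ (b q).card = p ^ 4 * (Qw k m t0 ω).card := by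
      rw [Finset.sum_congr rfl (g := fun _ => p ^ 4), Finset.sum_const, nsmul_eq_mul, mul_comm]
      intro q hq
      simp only [Qw, Q1, Finset.mem_filter] at hq
      obtain ⟨⟨-, ⟨m1, m2, m3, m4, m5, m6⟩, -⟩, -⟩ := hq
      simp only [b]
      rw [Finset.card_insert_of_notMem (by simp [m1, m2, m3]),
        Finset.card_insert_of_notMem (by simp [m4, m5]), Finset.card_pair m6]
    rw [e2] at hc
    exact hc

theorem build (l r k m : ℕ) (hk : 0 < k + m) {t0 : Finset X} (ht : t0 ∈ layer X k)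
    (hr : 2 * (layer X k).card * 2 ^ (k + m) ≤ 2 ^ r) (Φ Ψ x M : ℝ) (hΦ : 1 ≤ Φ) (hM : 0 ≤ M)
    (hx : x = (layer X k).card * (layer Y m).card * (1 / 2 : ℝ) ^ r) (hx0 : 0 < x)
    (hΨ : ∑ q ∈ quads X k ×ˢ quads Y m, psi ((1 / 2 : ℝ) ^ r) Φ q ≤ Ψ)
    (h1 : M ≤ x ^ (l + 1))
    (h2 : M ^ 3 * (Φ * Ψ ^ (l + 1)) * 2 ^ (l + 2) ≤ (x ^ (l + 1)) ^ 4) :
    ∃ F : Finset (Wd l X Y), UFw F ∧ M / 2 ^ (l + 2) ≤ F.card := by
  have hτ : (0 : ℝ) ≤ (1 / 2 : ℝ) ^ r := by positivity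
  have h0 : 0 ≤ Φ := by linarith
  set N : ℝ := ((Fintype.card (Om (Finset X × (X ⊕ Y)) r) : ℕ) : ℝ) with hN
  have hN0 : 0 ≤ N := Nat.cast_nonneg _
  have hz : 0 < x ^ (l + 1) := by positivity
  set p : ℝ := M / x ^ (l + 1) with hp
  have p0 : 0 ≤ p := by positivity
  have p1 : p ≤ 1 := (div_le_one hz).mpr h1
  have a1 : x ^ (l + 1) * (N ^ (l + 1) / 2 ^ (l + 1)) ≤
      ∑ ω : Hs l r X Y, ((Vw k m t0 ω).card : ℝ) := by
    simp only [Vw]
    rw [sum_card_swap (V1 l X Y k m) (fun (ω : Hs l r X Y) (a : Wd l X Y) => kw k t0 ω a)]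
    refine le_trans (le_of_eq ?_) (Finset.sum_le_sum fun a ha => cnt_kw t0 hr ha)
    rw [Finset.sum_const, nsmul_eq_mul, V1, Fintype.card_piFinset, Nat.cast_prod, Fin.prod_const,
      V0, Finset.card_product, ← hN, hx, ← div_pow, ← mul_pow, ← mul_pow]
    congr 1
    push_cast
    ring
  have hS0 : 0 ≤ ∑ q ∈ quads X k ×ˢ quads Y m, psi ((1 / 2 : ℝ) ^ r) Φ q :=
    Finset.sum_nonneg fun q _ => psi_nonneg hτ hΦ q
  have a2 : ∑ ω : Hs l r X Y, ((Qw k m t0 ω).card : ℝ) ≤ N ^ (l + 1) * (Φ * Ψ ^ (l + 1)) := by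
    simp only [Qw]
    rw [sum_card_swap (Q1 l X Y k m) (fun (ω : Hs l r X Y)
      (q : Wd l X Y × Wd l X Y × Wd l X Y × Wd l X Y) =>
        kw k t0 ω q.1 ∧ kw k t0 ω q.2.1 ∧ kw k t0 ω q.2.2.1 ∧ kw k t0 ω q.2.2.2)]
    calc _ ≤ ∑ q ∈ Q1 l X Y k m, N ^ (l + 1) * (Φ * ∏ j, psi ((1 / 2 : ℝ) ^ r) Φ (sp q j)) := by
          refine Finset.sum_le_sum fun q hq => ?_
          simp only [Q1, Finset.mem_filter, Finset.mem_product] at hq
          exact cnt_quad hk t0 hΦ hq.1.1 hq.1.2.1 hq.1.2.2.1 hq.1.2.2.2 hq.2.2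
      _ = N ^ (l + 1) * (Φ * ∑ q ∈ Q1 l X Y k m, ∏ j, psi ((1 / 2 : ℝ) ^ r) Φ (sp q j)) := by
          rw [← Finset.mul_sum, ← Finset.mul_sum]
      _ ≤ _ := mul_le_mul_of_nonneg_left (mul_le_mul_of_nonneg_left
          ((sum_Q1 l k m hτ hΦ).trans (pow_le_pow_left₀ hS0 hΨ _)) h0) (by positivity)
  have c1 : p * (x ^ (l + 1) * (N ^ (l + 1) / 2 ^ (l + 1))) =
      2 * (N ^ (l + 1) * (M / 2 ^ (l + 2))) := by
    rw [hp, pow_succ 2 (l + 1)]; field_simp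
  have c2 : p ^ 4 * (N ^ (l + 1) * (Φ * Ψ ^ (l + 1))) ≤ N ^ (l + 1) * (M / 2 ^ (l + 2)) := by
    have : p ^ 4 * (N ^ (l + 1) * (Φ * Ψ ^ (l + 1))) = N ^ (l + 1) * (M / 2 ^ (l + 2)) *
        ((M ^ 3 * (Φ * Ψ ^ (l + 1)) * 2 ^ (l + 2)) / (x ^ (l + 1)) ^ 4) := by
      rw [hp]; field_simp
    rw [this]
    exact mul_le_of_le_one_right (by positivity) ((div_le_one (by positivity)).mpr h2)
  have d1 := mul_le_mul_of_nonneg_left a1 p0
  have d2 := mul_le_mul_of_nonneg_left a2 (pow_nonneg p0 4)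
  have hcard : ((Finset.univ : Finset (Hs l r X Y)).card : ℝ) = N ^ (l + 1) := by
    rw [Finset.card_univ, Fintype.card_fun, Fintype.card_fin, hN]
    push_cast
    rfl
  have key : ∑ _ω : Hs l r X Y, M / 2 ^ (l + 2) ≤ ∑ ω : Hs l r X Y,
      (p * (Vw k m t0 ω).card - p ^ 4 * (Qw k m t0 ω).card) := by
    rw [Finset.sum_sub_distrib, ← Finset.mul_sum, ← Finset.mul_sum, Finset.sum_const,
      nsmul_eq_mul, hcard]
    linarith
  obtain ⟨ω, -, hω⟩ := Finset.exists_le_of_sum_le Finset.univ_nonempty key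
  obtain ⟨F, hF, hc⟩ := pick k m ht ω p p0 p1
  exact ⟨F, hF, hω.trans hc⟩

/-- Transfer to subsets of `Fin n`. -/
lemma move {l : ℕ} (n : ℕ) (hn : (l + 1) * (Fintype.card X + Fintype.card Y) ≤ n)
    (F : Finset (Wd l X Y)) (hF : UFw F) :
    ∃ A : Fin F.card → Finset (Fin n), ∀ i j k l : Fin F.card, i < j → k < l →
      A i ∪ A j = A k ∪ A l → i = k ∧ j = l := by
  obtain ⟨e⟩ : Nonempty (Fin (l + 1) × (X ⊕ Y) ↪ Fin n) :=
    Function.Embedding.nonempty_of_card_le (by simpa using hn)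
  let g : Fin F.card → Wd l X Y := fun i => (F.equivFin.symm i : Wd l X Y)
  have hg : Function.Injective g := fun i j h => F.equivFin.symm.injective (Subtype.ext h)
  have hgF : ∀ i, g i ∈ F := fun i => (F.equivFin.symm i).2
  refine ⟨fun i => (univ.filter (fun z : Fin (l + 1) × (X ⊕ Y) => z.2 ∈ js (g i z.1))).map e,
    fun i j k l' hij hkl h => ?_⟩
  rw [← Finset.map_union, ← Finset.map_union, Finset.map_inj] at h
  have h1 : col (g i) (g j) (g k) (g l') := by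
    intro s
    constructor
    · ext x
      have : (s, Sum.inl x) ∈ _ ↔ (s, Sum.inl x) ∈ _ := Finset.ext_iff.mp h (s, Sum.inl x)
      simpa [js] using this
    · ext x
      have : (s, Sum.inr x) ∈ _ ↔ (s, Sum.inr x) ∈ _ := Finset.ext_iff.mp h (s, Sum.inr x)
      simpa [js] using this
  rcases hF _ (hgF i) _ (hgF j) _ (hgF k) _ (hgF l') (hg.ne hij.ne) (hg.ne hkl.ne) h1 with
    ⟨a, b⟩ | ⟨a, b⟩
  · exact ⟨hg a, hg b⟩
  · have := hg a
    have := hg b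
    omega

end Pool.Agent.Lib.UF74
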