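import Pool.Agent.Lib.UF74.C

set_option autoImplicit false
set_option linter.unusedSectionVars false

namespace Pool.Agent.Lib.UF74

open Finset Pool.Agent.Lib.MP_70e206_co

variable {X : Type} [Fintype X] [DecidableEq X]

lemma cn0_le (k : ℕ) (t : ℝ) (ht : 0 ≤ t) :
    cn X k 0 * t ^ (4 * k) ≤ (1 + (2 * t + t ^ 2) ^ 2) ^ Fintype.card X := by
  refine le_trans (mul_le_mul_of_nonneg_right ?_ (by positivity)) (quads_le k t ht)
  exact Nat.cast_le.mpr (Finset.card_filter_le _ _)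

lemma cn1_le (k : ℕ) (t : ℝ) (ht : 0 ≤ t) :
    cn X k 1 * t ^ (4 * k) ≤ (1 + 4 * t ^ 2 + t ^ 4) ^ Fintype.card X := by
  refine le_trans (mul_le_mul_of_nonneg_right ?_ (by positivity)) (dquads_le k t ht)
  refine Nat.cast_le.mpr (Finset.card_le_card fun q hq => ?_)
  exact Finset.mem_filter.mpr (Finset.mem_filter.mp hq)

lemma quad_facts {k : ℕ} {q : Q4 X} (hq : q ∈ quads X k) :
    q.1.card = k ∧ q.2.1.card = k ∧ q.2.2.1.card = k ∧ q.2.2.2.card = k ∧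
      ∀ x, (decide (x ∈ q.1) || decide (x ∈ q.2.1)) =
        (decide (x ∈ q.2.2.1) || decide (x ∈ q.2.2.2)) := by
  simp only [quads, layer, Finset.mem_filter, Finset.mem_product, Finset.mem_powersetCard] at hq
  refine ⟨hq.1.1.2, hq.1.2.1.2, hq.1.2.2.1.2, hq.1.2.2.2.2, fun x => ?_⟩
  have h : x ∈ q.1 ∪ q.2.1 ↔ x ∈ q.2.2.1 ∪ q.2.2.2 := by rw [hq.2]
  simp only [Finset.mem_union] at h
  simp only [← Bool.decide_or, decide_eq_decide]
  exact h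

lemma cn2_le (k : ℕ) (t : ℝ) (ht : 0 ≤ t) :
    cn X k 2 * t ^ (4 * k) ≤ (1 + t ^ 2 + t ^ 2 * (1 + t) ^ 2) ^ Fintype.card X := by
  have := tilt (X := X) (fun s => (s.1 || s.2.1) = (s.2.2.1 || s.2.2.2) ∧ s.1 = s.2.2.1) k t ht
    ((quads X k).filter (sh 2)) (by
    intro q hq
    obtain ⟨h1, h2⟩ := Finset.mem_filter.mp hq
    obtain ⟨a, b, c, d, e⟩ := quad_facts h1
    exact ⟨a, b, c, d, fun x => ⟨e x, by simp only [sh] at h2; simp only [h2]⟩⟩)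
  refine this.trans (le_of_eq ?_)
  congr 1
  simp [Fintype.sum_prod_type]
  ring

lemma cn3_le (k : ℕ) (t : ℝ) (ht : 0 ≤ t) :
    cn X k 3 * t ^ (4 * k) ≤ (1 + t ^ 2 + t ^ 2 * (1 + t) ^ 2) ^ Fintype.card X := by
  have := tilt (X := X) (fun s => (s.1 || s.2.1) = (s.2.2.1 || s.2.2.2) ∧ s.1 = s.2.2.2) k t ht
    ((quads X k).filter (sh 3)) (by
    intro q hq
    obtain ⟨h1, h2⟩ := Finset.mem_filter.mp hq
    obtain ⟨a, b, c, d, e⟩ := quad_facts h1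
    exact ⟨a, b, c, d, fun x => ⟨e x, by simp only [sh] at h2; simp only [h2]⟩⟩)
  refine this.trans (le_of_eq ?_)
  congr 1
  simp [Fintype.sum_prod_type]
  ring

lemma cn4_le (k : ℕ) (t : ℝ) (ht : 0 ≤ t) :
    cn X k 4 * t ^ (4 * k) ≤ (1 + t ^ 2 + t ^ 2 * (1 + t) ^ 2) ^ Fintype.card X := by
  have := tilt (X := X) (fun s => (s.1 || s.2.1) = (s.2.2.1 || s.2.2.2) ∧ s.2.1 = s.2.2.1) k t ht
    ((quads X k).filter (sh 4)) (by
    intro q hq
    obtain ⟨h1, h2⟩ := Finset.mem_filter.mp hq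
    obtain ⟨a, b, c, d, e⟩ := quad_facts h1
    exact ⟨a, b, c, d, fun x => ⟨e x, by simp only [sh] at h2; simp only [h2]⟩⟩)
  refine this.trans (le_of_eq ?_)
  congr 1
  simp [Fintype.sum_prod_type]
  ring

lemma cn5_le (k : ℕ) (t : ℝ) (ht : 0 ≤ t) :
    cn X k 5 * t ^ (4 * k) ≤ (1 + t ^ 2 + t ^ 2 * (1 + t) ^ 2) ^ Fintype.card X := by
  have := tilt (X := X) (fun s => (s.1 || s.2.1) = (s.2.2.1 || s.2.2.2) ∧ s.2.1 = s.2.2.2) k t ht
    ((quads X k).filter (sh 5)) (by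
    intro q hq
    obtain ⟨h1, h2⟩ := Finset.mem_filter.mp hq
    obtain ⟨a, b, c, d, e⟩ := quad_facts h1
    exact ⟨a, b, c, d, fun x => ⟨e x, by simp only [sh] at h2; simp only [h2]⟩⟩)
  refine this.trans (le_of_eq ?_)
  congr 1
  simp [Fintype.sum_prod_type]
  ring

/-- From a tilted count to a bound against the fourth power of the layer. -/
lemma norm4 {s k : ℕ} {c N u t lam g y A : ℝ} (hc : 0 ≤ c) (ht : 0 < t) (hg : 0 ≤ g)
    (hy : 0 ≤ y) (hA : 0 ≤ A) (hL : (1 + t) ^ s ≤ u * (N * t ^ k))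
    (hy' : y ≤ lam ^ 4) (h : c * (lam * t) ^ (4 * k) ≤ g ^ s) (hgA : 2 * g ≤ A * (1 + t) ^ 4) :
    y ^ k * c * 2 ^ s ≤ u ^ 4 * N ^ 4 * A ^ s := by
  have h1 : ((1 + t) ^ s) ^ 4 ≤ (u * (N * t ^ k)) ^ 4 := pow_le_pow_left₀ (by positivity) hL 4
  have h2 : (2 * g) ^ s ≤ (A * (1 + t) ^ 4) ^ s := pow_le_pow_left₀ (by positivity) hgA s
  have h3 : y ^ k ≤ (lam ^ 4) ^ k := pow_le_pow_left₀ hy hy' k
  have h4 : (0 : ℝ) < (t ^ k) ^ 4 := by positivity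
  refine le_of_mul_le_mul_right ?_ h4
  calc y ^ k * c * 2 ^ s * (t ^ k) ^ 4 ≤ (lam ^ 4) ^ k * c * 2 ^ s * (t ^ k) ^ 4 := by gcongr
    _ = (c * (lam * t) ^ (4 * k)) * 2 ^ s := by
        rw [mul_pow lam t, ← pow_mul lam, ← pow_mul t, mul_comm k 4]; ring
    _ ≤ g ^ s * 2 ^ s := by gcongr
    _ = (2 * g) ^ s := by rw [mul_pow]; ring
    _ ≤ (A * (1 + t) ^ 4) ^ s := h2
    _ = A ^ s * ((1 + t) ^ s) ^ 4 := by rw [mul_pow, ← pow_mul, ← pow_mul, mul_comm 4 s]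
    _ ≤ A ^ s * (u * (N * t ^ k)) ^ 4 := by gcongr
    _ = _ := by ring

/-- The facts used about one block. -/
structure Blk (X : Type) [Fintype X] [DecidableEq X] (s k : ℕ) (N U : ℝ) : Prop where
  n1 : 1 ≤ N
  n2 : N ≤ 2 ^ s
  q0 : cn X k 0 * 2 ^ s ≤ 3 * (U ^ 4 * N ^ 4)
  q1 : 2 ^ k * cn X k 1 * 2 ^ s ≤ U ^ 4 * N ^ 4 * 1.018 ^ s
  q2 : 2 ^ k * cn X k 2 * 2 ^ s ≤ U ^ 4 * N ^ 4 * 0.9 ^ s
  q3 : 2 ^ k * cn X k 3 * 2 ^ s ≤ U ^ 4 * N ^ 4 * 0.9 ^ s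
  q4 : 2 ^ k * cn X k 4 * 2 ^ s ≤ U ^ 4 * N ^ 4 * 0.9 ^ s
  q5 : 2 ^ k * cn X k 5 * 2 ^ s ≤ U ^ 4 * N ^ 4 * 0.9 ^ s
  pp : 2 ^ s ≤ U ^ 2 * N ^ 2 * 0.1723 ^ k
  k1 : 2 * s ≤ 7 * k
  k2 : 14 * k ≤ 5 * s

lemma blk (s : ℕ) (hs : Fintype.card X = s) (h3 : 2600 ≤ s) (U : ℝ) (hU : (s : ℝ) + 1 ≤ U) :
    ∃ k, Blk X s k (layer X k).card U := by
  obtain ⟨j, h1, h2⟩ : ∃ j : ℕ, 2 * j ^ 2 ≤ s ^ 2 ∧ s ^ 2 < 2 * (j + 1) ^ 2 := by
    refine ⟨Nat.sqrt (s ^ 2 / 2), ?_, ?_⟩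
    · have := Nat.sqrt_le' (s ^ 2 / 2)
      omega
    · have := Nat.lt_succ_sqrt' (s ^ 2 / 2)
      simp only [Nat.succ_eq_add_one] at this
      omega
  have hs0 : (2600 : ℝ) ≤ s := by exact_mod_cast h3
  have r1 : 2 * (j : ℝ) ^ 2 ≤ (s : ℝ) ^ 2 := by exact_mod_cast h1
  have r2 : (s : ℝ) ^ 2 < 2 * ((j : ℝ) + 1) ^ 2 := by exact_mod_cast h2
  have j0 : (0 : ℝ) ≤ j := Nat.cast_nonneg j
  have up : (j : ℝ) ≤ 0.7072 * s := by
    by_contra hc
    push Not at hc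
    have := pow_le_pow_left₀ (by positivity) hc.le 2
    rw [mul_pow] at this
    have p : (0 : ℝ) < (s : ℝ) ^ 2 := by positivity
    linarith
  have lo : 0.7071 * (s : ℝ) ≤ j + 1 := by
    by_contra hc
    push Not at hc
    have := pow_le_pow_left₀ (by positivity) hc.le 2
    rw [mul_pow] at this
    have p : (0 : ℝ) < (s : ℝ) ^ 2 := by positivity
    linarith
  have lo' : (s : ℝ) ≤ 1.415 * j := by linarith
  have jp : (0 : ℝ) < j := by linarith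
  have hjs : j < s := by
    have : (j : ℝ) < s := by linarith
    exact_mod_cast this
  have hj0 : 0 < j := by exact_mod_cast jp
  obtain ⟨k, hk⟩ : ∃ k, s = k + j := ⟨s - j, by omega⟩
  have rk : (s : ℝ) = k + j := by exact_mod_cast hk
  have hk0 : 0 < k := by omega
  have kp : (0 : ℝ) < k := by exact_mod_cast hk0
  have hN : ((layer X k).card : ℝ) = s.choose k := by
    rw [layer, Finset.card_powersetCard, Finset.card_univ, hs]
  have hL0 := choose_lower s k hk0 (by omega)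
  rw [show (s : ℝ) - k = j by linarith, ← hN] at hL0
  set t : ℝ := k / j with ht
  set N : ℝ := ((layer X k).card : ℝ) with hN'
  have t0 : 0 < t := div_pos kp jp
  have tj : (1 + t) * j = s := by rw [ht, rk]; field_simp; ring
  have N0 : 0 ≤ N := Nat.cast_nonneg _
  have hL : (1 + t) ^ s ≤ U * (N * t ^ k) :=
    hL0.trans (mul_le_mul_of_nonneg_right hU (by positivity))
  have U0 : 0 ≤ U := by linarith
  have t1 : t ≤ 0.415 := by
    have : (1 + t) * j ≤ 1.415 * j := by linarith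
    have := le_of_mul_le_mul_right this jp
    linarith
  have t2 : 2 ≤ (1 + t) ^ 2 := by
    have : 2 * (j : ℝ) ^ 2 ≤ (1 + t) ^ 2 * (j : ℝ) ^ 2 := by rw [← mul_pow, tj]; exact r1
    exact le_of_mul_le_mul_right this (by positivity)
  have t4 : 4 ≤ (1 + t) ^ 4 := by
    have := pow_le_pow_left₀ (by norm_num) t2 2
    rw [show (1 + t) ^ 4 = ((1 + t) ^ 2) ^ 2 by ring]
    linarith
  have tsq : t ^ 2 ≤ 0.172225 := by
    have := pow_le_pow_left₀ t0.le t1 2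
    linarith
  have lam : (2 : ℝ) ≤ 1.19 ^ 4 := by norm_num
  have tri : 2 * (1 + (1.19 * t) ^ 2 + (1.19 * t) ^ 2 * (1 + 1.19 * t) ^ 2) ≤ 0.9 * (1 + t) ^ 4 := by
    have a1 : (1.19 * t) ^ 2 ≤ 0.244 := by rw [mul_pow]; linarith
    have a2 : (1 + 1.19 * t) ^ 2 ≤ 2.24 := by
      rw [show (1 + 1.19 * t) ^ 2 = 1 + 2.38 * t + (1.19 * t) ^ 2 by ring]; linarith
    have a3 : (1.19 * t) ^ 2 * (1 + 1.19 * t) ^ 2 ≤ 0.244 * 2.24 :=
      mul_le_mul a1 a2 (by positivity) (by norm_num)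
    linarith
  have lt0 : 0 ≤ 1.19 * t := by positivity
  refine ⟨k, ?_, ?_, ?_, ?_, ?_, ?_, ?_, ?_, ?_, ?_, ?_⟩
  · rw [← hN', hN]
    exact_mod_cast Nat.choose_pos (by omega)
  · rw [← hN', hN]
    exact_mod_cast Nat.choose_le_two_pow s k
  · set e : ℝ := 1 - 2 / (1 + t) ^ 2 with he
    have w0 : 0 < (1 + t) ^ 2 := by positivity
    have e0 : 0 ≤ e := by
      have : 2 / (1 + t) ^ 2 ≤ 1 := (div_le_one w0).mpr t2
      linarith
    have e1 : e * (s : ℝ) ^ 2 = (s : ℝ) ^ 2 - 2 * (j : ℝ) ^ 2 := by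
      rw [he, ← tj]; field_simp
    have e2 : e * s ≤ 4 := by
      have : e * s * s ≤ 4 * s := by
        rw [show e * s * s = e * (s : ℝ) ^ 2 by ring, e1]
        rw [show 2 * ((j : ℝ) + 1) ^ 2 = 2 * (j : ℝ) ^ 2 + 4 * j + 2 by ring] at r2
        linarith
      exact le_of_mul_le_mul_right this (by linarith)
    have e3 : (s : ℝ) * e ^ 2 ≤ 1 := by
      have a1 : (e * s) ^ 2 ≤ 4 ^ 2 := pow_le_pow_left₀ (by positivity) e2 2
      have : (s : ℝ) * e ^ 2 * s ≤ 1 * s := by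
        rw [show (s : ℝ) * e ^ 2 * s = (e * s) ^ 2 by ring]; linarith
      exact le_of_mul_le_mul_right this (by linarith)
    have e4 : (1 + e ^ 2) ^ s ≤ 3 := by
      calc (1 + e ^ 2) ^ s ≤ (Real.exp (e ^ 2)) ^ s :=
            pow_le_pow_left₀ (by positivity) (by linarith [Real.add_one_le_exp (e ^ 2)]) s
        _ = Real.exp (s * e ^ 2) := (Real.exp_nat_mul _ _).symm
        _ ≤ Real.exp 1 := Real.exp_le_exp.mpr e3
        _ ≤ 3 := by linarith [Real.exp_one_lt_d9]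
    have := norm4 (s := s) (k := k) (c := cn X k 0) (N := N) (u := U) (t := t) (lam := 1)
      (g := 1 + (2 * t + t ^ 2) ^ 2) (y := 1) (A := 1 + e ^ 2) (cn_nonneg k 0) t0 (by positivity)
      (by norm_num) (by positivity) hL (by norm_num)
      (by rw [one_mul, ← hs]; exact cn0_le k t t0.le)
      (le_of_eq (by rw [he]; field_simp; ring))
    rw [one_pow, one_mul] at this
    have p : 0 ≤ U ^ 4 * N ^ 4 := by positivity
    linarith [mul_le_mul_of_nonneg_left e4 p]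
  · refine norm4 (g := 1 + 4 * (1.19 * t) ^ 2 + (1.19 * t) ^ 4) (cn_nonneg (X := X) k 1) t0
      (by positivity) (by norm_num) (by norm_num) hL lam
      (by rw [← hs]; exact cn1_le k _ lt0) ?_
    have a1 : (1.19 * t) ^ 2 ≤ 0.24389 := by rw [mul_pow]; linarith
    have a2 : (1.19 * t) ^ 4 ≤ 0.24389 ^ 2 := by
      rw [show (1.19 * t) ^ 4 = ((1.19 * t) ^ 2) ^ 2 by ring]
      exact pow_le_pow_left₀ (by positivity) a1 2
    linarith
  · exact norm4 (cn_nonneg k 2) t0 (by positivity) (by norm_num) (by norm_num) hL lam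
      (by rw [← hs]; exact cn2_le k _ lt0) tri
  · exact norm4 (cn_nonneg k 3) t0 (by positivity) (by norm_num) (by norm_num) hL lam
      (by rw [← hs]; exact cn3_le k _ lt0) tri
  · exact norm4 (cn_nonneg k 4) t0 (by positivity) (by norm_num) (by norm_num) hL lam
      (by rw [← hs]; exact cn4_le k _ lt0) tri
  · exact norm4 (cn_nonneg k 5) t0 (by positivity) (by norm_num) (by norm_num) hL lam
      (by rw [← hs]; exact cn5_le k _ lt0) tri
  · calc (2 : ℝ) ^ s ≤ ((1 + t) ^ 2) ^ s := pow_le_pow_left₀ (by norm_num) t2 s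
      _ = ((1 + t) ^ s) ^ 2 := by rw [← pow_mul, ← pow_mul, mul_comm]
      _ ≤ (U * (N * t ^ k)) ^ 2 := pow_le_pow_left₀ (by positivity) hL 2
      _ = U ^ 2 * N ^ 2 * (t ^ 2) ^ k := by
          rw [← pow_mul, mul_comm 2 k, pow_mul]; ring
      _ ≤ _ := by
          have : (t ^ 2) ^ k ≤ 0.1723 ^ k := pow_le_pow_left₀ (by positivity) (by linarith) k
          gcongr
  · have : 2 * (s : ℝ) ≤ 7 * k := by linarith
    exact_mod_cast this
  · have : 14 * (k : ℝ) ≤ 5 * s := by linarith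
    exact_mod_cast this

end Pool.Agent.Lib.UF74
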