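import Pool.Agent.Lib.UF74.D

set_option autoImplicit false
set_option linter.unusedSectionVars false

namespace Pool.Agent.Lib.UF74

open Finset Pool.Agent.Lib.MP_70e206_co

variable {X Y : Type} [Fintype X] [DecidableEq X] [Fintype Y] [DecidableEq Y]

lemma pw {y : ℝ} (h0 : 0 ≤ y) (h1 : y ≤ 1) (n : ℕ) : y ^ n ≤ 1 := pow_le_one₀ h0 h1

lemma A7 : (1.018 : ℝ) ^ 7 ≤ 1.134 := by norm_num
lemma B7 : (0.9 : ℝ) ^ 7 ≤ 0.4783 := by norm_num

lemma A105 (σ : ℕ) : (1.018 : ℝ) ^ (105 * σ) ≤ 6.6 ^ σ := by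
  rw [pow_mul]
  refine pow_le_pow_left₀ (by positivity) ?_ σ
  calc (1.018 : ℝ) ^ 105 = (1.018 ^ 7) ^ 15 := by rw [← pow_mul]
    _ ≤ 1.134 ^ 15 := pow_le_pow_left₀ (by positivity) A7 15
    _ ≤ 6.6 := by norm_num

lemma A7s (σ : ℕ) : (1.018 : ℝ) ^ (7 * σ) ≤ 1.134 ^ σ := by
  rw [pow_mul]
  exact pow_le_pow_left₀ (by positivity) A7 σ

lemma B105 (σ : ℕ) : (0.9 : ℝ) ^ (105 * σ) ≤ 0.00002 ^ σ := by
  rw [pow_mul]
  refine pow_le_pow_left₀ (by positivity) ?_ σ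
  calc (0.9 : ℝ) ^ 105 = (0.9 ^ 7) ^ 15 := by rw [← pow_mul]
    _ ≤ 0.4783 ^ 15 := pow_le_pow_left₀ (by positivity) B7 15
    _ ≤ 0.00002 := by norm_num

lemma dec {y z : ℝ} (h0 : 0 ≤ y) (h1 : y ≤ 1) {a k σ : ℕ} (h : a * σ ≤ k) (hz : y ^ a ≤ z) :
    y ^ k ≤ z ^ σ :=
  (pow_le_pow_of_le_one h0 h1 h).trans (by
    rw [pow_mul]; exact pow_le_pow_left₀ (by positivity) hz σ)

lemma inc {a k σ : ℕ} (h : k ≤ a * σ) : (2 : ℝ) ^ k ≤ (2 ^ a) ^ σ := by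
  rw [← pow_mul]; exact pow_le_pow_right₀ (by norm_num) h

/-- One level costs a polynomial factor over the generic count. -/
lemma level (σ k m : ℕ) (N P U R : ℝ) (hB : Blk X (7 * σ) k N U) (hC : Blk Y (105 * σ) m P U)
    (hN : N = (layer X k).card) (hP : P = (layer Y m).card) (hU : 1 ≤ U) (hR0 : 0 < R)
    (hR : R ≤ 4 * (2 ^ k * 2 ^ m * N)) :
    (∑ i, co (1 / R) (N * 7.5 ^ σ) i * ((cn X k i + N * 7.5 ^ σ * N) * cn Y m i) ≤
      250 * U ^ 8 * ((N * P * (1 / R)) ^ 4 / 2 ^ (112 * σ))) ∧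
    2 ^ (112 * σ) ≤ 250 * U ^ 8 * (N * P * (1 / R)) ^ 3 := by
  have N1 := hB.n1
  have P1 := hC.n1
  have N0 : 0 < N := by linarith
  have P0 : 0 < P := by linarith
  have U0 : 0 < U := by linarith
  have k1 : 2 * σ ≤ k := by have := hB.k1; omega
  have k2 : k ≤ 3 * σ := by have := hB.k2; omega
  have k3 : 2 * k ≤ 5 * σ := by have := hB.k2; omega
  have m1 : 30 * σ ≤ m := by have := hC.k1; omega
  obtain ⟨G, hG⟩ : ∃ G : ℝ, G = 7.5 ^ σ := ⟨_, rfl⟩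
  obtain ⟨a, ha⟩ : ∃ a : ℝ, a = 2 ^ k := ⟨_, rfl⟩
  obtain ⟨c, hc⟩ : ∃ c : ℝ, c = 2 ^ m := ⟨_, rfl⟩
  obtain ⟨e, he⟩ : ∃ e : ℝ, e = 2 ^ (7 * σ) := ⟨_, rfl⟩
  obtain ⟨f, hf⟩ : ∃ f : ℝ, f = 2 ^ (105 * σ) := ⟨_, rfl⟩
  have hef : (2 : ℝ) ^ (112 * σ) = e * f := by rw [he, hf, ← pow_add]; congr 1; ring
  have G1 : 1 ≤ G := by rw [hG]; exact one_le_pow₀ (by norm_num)
  have G0 : 0 < G := by linarith
  have a0 : 0 < a := by rw [ha]; positivity
  have c0 : 0 < c := by rw [hc]; positivity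
  have e0 : 0 < e := by rw [he]; positivity
  have f0 : 0 < f := by rw [hf]; positivity
  have he' : e = 128 ^ σ := by rw [he, pow_mul]; norm_num
  have ha8 : a ≤ 8 ^ σ := by
    have := inc k2
    rw [ha]; norm_num at this ⊢; exact this
  have ha32 : a ^ 2 ≤ 32 ^ σ := by
    have := inc k3
    rw [ha, ← pow_mul, mul_comm k 2]; norm_num at this ⊢; exact this
  obtain ⟨-, b2, bq0, bq1, bq2, bq3, bq4, bq5, bp, -, -⟩ := hB
  obtain ⟨-, c2, cq0, cq1, cq2, cq3, cq4, cq5, cp, -, -⟩ := hC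
  rw [← he] at b2 bq0 bq1 bq2 bq3 bq4 bq5 bp
  rw [← hf] at c2 cq0 cq1 cq2 cq3 cq4 cq5 cp
  rw [← ha] at bq1 bq2 bq3 bq4 bq5 hR
  rw [← hc] at cq1 cq2 cq3 cq4 cq5 hR
  rw [← hG, hef]
  obtain ⟨Z, hZ⟩ : ∃ Z : ℝ, Z = U ^ 8 * (N * P) ^ 4 := ⟨_, rfl⟩
  have Z0 : 0 < Z := by rw [hZ]; positivity
  have U6 : U ^ 6 ≤ U ^ 8 := pow_le_pow_right₀ hU (by norm_num)
  have U4 : U ^ 4 ≤ U ^ 8 := pow_le_pow_right₀ hU (by norm_num)
  have U2 : U ^ 2 ≤ U ^ 8 := pow_le_pow_right₀ hU (by norm_num)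
  have xB := fun i => cn_nonneg (X := X) k i
  have xC := fun i => cn_nonneg (X := Y) m i
  -- generic shape
  have T0 : (cn X k 0 + N * G * N) * cn Y m 0 * (e * f) ≤ 12 * Z := by
    have s1 : cn X k 0 * e * (cn Y m 0 * f) ≤ 3 * (U ^ 4 * N ^ 4) * (3 * (U ^ 4 * P ^ 4)) :=
      mul_le_mul bq0 cq0 (mul_nonneg (xC 0) f0.le) (by positivity)
    have s2 : G * 0.1723 ^ k ≤ 1 := by
      calc G * 0.1723 ^ k ≤ 7.5 ^ σ * 0.03 ^ σ := by
            rw [hG]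
            exact mul_le_mul_of_nonneg_left
              (dec (by norm_num) (by norm_num) k1 (by norm_num)) (by positivity)
        _ ≤ 1 := by rw [← mul_pow]; exact pw (by norm_num) (by norm_num) σ
    have s3 : N * G * N * e ≤ U ^ 2 * N ^ 4 := by
      calc N * G * N * e ≤ N * G * N * (U ^ 2 * N ^ 2 * 0.1723 ^ k) := by gcongr
        _ = U ^ 2 * N ^ 4 * (G * 0.1723 ^ k) := by ring
        _ ≤ U ^ 2 * N ^ 4 * 1 := by gcongr
        _ = _ := mul_one _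
    have s4 : N * G * N * e * (cn Y m 0 * f) ≤ U ^ 2 * N ^ 4 * (3 * (U ^ 4 * P ^ 4)) :=
      mul_le_mul s3 cq0 (mul_nonneg (xC 0) f0.le) (by positivity)
    have s5 : U ^ 6 * (N * P) ^ 4 ≤ Z := by rw [hZ]; gcongr
    calc _ = cn X k 0 * e * (cn Y m 0 * f) + N * G * N * e * (cn Y m 0 * f) := by ring
      _ ≤ 9 * (U ^ 8 * (N * P) ^ 4) + 3 * (U ^ 6 * (N * P) ^ 4) := by
          refine (add_le_add s1 s4).trans (le_of_eq ?_); ring
      _ ≤ _ := by rw [← hZ]; linarith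
  -- even covers
  have T1 : R * ((cn X k 1 + N * G * N) * cn Y m 1) * (e * f) ≤ 8 * Z * (N * G) := by
    have y1 := xB 1
    have y2 := xC 1
    have s1 : a * cn X k 1 * e * (c * cn Y m 1 * f) ≤
        U ^ 4 * N ^ 4 * 1.134 ^ σ * (U ^ 4 * P ^ 4 * 6.6 ^ σ) :=
      mul_le_mul (bq1.trans (mul_le_mul_of_nonneg_left (A7s σ) (by positivity)))
        (cq1.trans (mul_le_mul_of_nonneg_left (A105 σ) (by positivity))) (by positivity)
        (by positivity)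
    have s2 : (1.134 : ℝ) ^ σ * 6.6 ^ σ ≤ G := by
      rw [hG, ← mul_pow]; exact pow_le_pow_left₀ (by norm_num) (by norm_num) σ
    have s3 : a * 0.1723 ^ k * 6.6 ^ σ ≤ 1 := by
      calc a * 0.1723 ^ k * 6.6 ^ σ = 0.3446 ^ k * 6.6 ^ σ := by
            rw [ha, ← mul_pow]; norm_num
        _ ≤ 0.1188 ^ σ * 6.6 ^ σ := mul_le_mul_of_nonneg_right
            (dec (by norm_num) (by norm_num) k1 (by norm_num)) (by positivity)
        _ ≤ 1 := by rw [← mul_pow]; exact pw (by norm_num) (by norm_num) σ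
    have s4 : a * N * N * e * (c * cn Y m 1 * f) ≤ Z := by
      calc a * N * N * e * (c * cn Y m 1 * f)
          ≤ a * N * N * (U ^ 2 * N ^ 2 * 0.1723 ^ k) * (U ^ 4 * P ^ 4 * 6.6 ^ σ) :=
            mul_le_mul (by gcongr)
              (cq1.trans (mul_le_mul_of_nonneg_left (A105 σ) (by positivity))) (by positivity)
              (by positivity)
        _ = U ^ 6 * (N * P) ^ 4 * (a * 0.1723 ^ k * 6.6 ^ σ) := by ring
        _ ≤ U ^ 8 * (N * P) ^ 4 * 1 := by gcongr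
        _ = Z := by rw [hZ, mul_one]
    have s5 : a * cn X k 1 * e * (c * cn Y m 1 * f) ≤ Z * G := by
      refine s1.trans ?_
      calc _ = Z * (1.134 ^ σ * 6.6 ^ σ) := by rw [hZ]; ring
        _ ≤ _ := by gcongr
    calc _ ≤ 4 * (a * c * N) * ((cn X k 1 + N * G * N) * cn Y m 1) * (e * f) := by gcongr
      _ = 4 * N * (a * cn X k 1 * e * (c * cn Y m 1 * f)) +
          4 * (N * G) * (a * N * N * e * (c * cn Y m 1 * f)) := by ring
      _ ≤ 4 * N * (Z * G) + 4 * (N * G) * Z := by gcongr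
      _ = _ := by ring
  -- one coincidence
  have T2 : ∀ u v : ℝ, 0 ≤ u → 0 ≤ v → a * u * e ≤ U ^ 4 * N ^ 4 * 0.9 ^ (7 * σ) →
      c * v * f ≤ U ^ 4 * P ^ 4 * 0.9 ^ (105 * σ) →
      R * ((u + N * G * N) * v) * (e * f) ≤ 8 * Z := by
    intro u v u0 v0 hu hv
    have hv' := hv.trans (mul_le_mul_of_nonneg_left (B105 σ) (by positivity))
    have hu' : a * u * e ≤ U ^ 4 * N ^ 4 * 1 :=
      hu.trans (mul_le_mul_of_nonneg_left (pw (by norm_num) (by norm_num) _) (by positivity))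
    have s1 : N * 0.00002 ^ σ ≤ 1 := by
      calc N * 0.00002 ^ σ ≤ 128 ^ σ * 0.00002 ^ σ := by rw [← he']; gcongr
        _ ≤ 1 := by rw [← mul_pow]; exact pw (by norm_num) (by norm_num) σ
    have s2 : a * e * G * 0.00002 ^ σ ≤ 1 := by
      calc a * e * G * 0.00002 ^ σ ≤ 8 ^ σ * 128 ^ σ * 7.5 ^ σ * 0.00002 ^ σ := by
            rw [← he', ← hG]; gcongr
        _ ≤ 1 := by
            rw [← mul_pow, ← mul_pow, ← mul_pow]; exact pw (by norm_num) (by norm_num) σ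
    have s3 : N * (a * u * e * (c * v * f)) ≤ Z := by
      calc _ ≤ N * (U ^ 4 * N ^ 4 * 1 * (U ^ 4 * P ^ 4 * 0.00002 ^ σ)) := by gcongr
        _ = Z * (N * 0.00002 ^ σ) := by rw [hZ]; ring
        _ ≤ Z * 1 := by gcongr
        _ = Z := mul_one _
    have N34 : N ^ 3 ≤ N ^ 4 := pow_le_pow_right₀ N1 (by norm_num)
    have s4 : N ^ 3 * (a * e * G) * (c * v * f) ≤ Z := by
      calc _ ≤ N ^ 4 * (a * e * G) * (U ^ 4 * P ^ 4 * 0.00002 ^ σ) := by gcongr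
        _ = U ^ 4 * (N * P) ^ 4 * (a * e * G * 0.00002 ^ σ) := by ring
        _ ≤ U ^ 8 * (N * P) ^ 4 * 1 := by gcongr
        _ = Z := by rw [hZ, mul_one]
    calc _ ≤ 4 * (a * c * N) * ((u + N * G * N) * v) * (e * f) := by gcongr
      _ = 4 * (N * (a * u * e * (c * v * f))) + 4 * (N ^ 3 * (a * e * G) * (c * v * f)) := by ring
      _ ≤ _ := by linarith
  -- two coincidences
  have T6 : ∀ u v : ℝ, 0 ≤ u → 0 ≤ v → u ≤ N ^ 2 → v ≤ P ^ 2 →
      R ^ 2 * ((u + N * G * N) * v) * (e * f) ≤ 32 * Z := by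
    intro u v u0 v0 hu hv
    have s0 : u + N * G * N ≤ 2 * (G * N ^ 2) := by
      have : N ^ 2 ≤ G * N ^ 2 := le_mul_of_one_le_left (by positivity) G1
      linarith
    have s1 : a ^ 2 * e * G * (c ^ 2 * 0.1723 ^ m) ≤ 1 := by
      have t1 : c ^ 2 * 0.1723 ^ m = 0.6892 ^ m := by
        rw [hc, ← pow_mul, mul_comm m 2, pow_mul, ← mul_pow]; norm_num
      have t2 : (0.6892 : ℝ) ^ m ≤ 0.00002 ^ σ :=
        dec (by norm_num) (by norm_num) m1 (by norm_num)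
      calc a ^ 2 * e * G * (c ^ 2 * 0.1723 ^ m)
          ≤ 32 ^ σ * 128 ^ σ * 7.5 ^ σ * 0.00002 ^ σ := by
            rw [← he', ← hG, t1]; gcongr
        _ ≤ 1 := by
            rw [← mul_pow, ← mul_pow, ← mul_pow]; exact pw (by norm_num) (by norm_num) σ
    calc _ ≤ (4 * (a * c * N)) ^ 2 * (2 * (G * N ^ 2) * P ^ 2) *
          (e * (U ^ 2 * P ^ 2 * 0.1723 ^ m)) := by gcongr
      _ = 32 * (U ^ 2 * (N * P) ^ 4 * (a ^ 2 * e * G * (c ^ 2 * 0.1723 ^ m))) := by ring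
      _ ≤ 32 * (U ^ 8 * (N * P) ^ 4 * 1) := by gcongr
      _ = _ := by rw [hZ, mul_one]
  -- all four equal
  have T8 : R ^ 3 * ((N + N * G * N) * P) * (e * f) ≤ 128 * Z := by
    have s0 : N + N * G * N ≤ 2 * (G * N ^ 2) := by
      have t1 : N ≤ N ^ 2 := le_self_pow₀ N1 (by norm_num)
      have : N ^ 2 ≤ G * N ^ 2 := le_mul_of_one_le_left (by positivity) G1
      linarith
    have s1 : P * f ≤ (U ^ 2 * P ^ 2 * 0.1723 ^ m) ^ 2 := by
      calc P * f ≤ f * f := by gcongr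
        _ = f ^ 2 := by ring
        _ ≤ _ := by gcongr
    have s2 : a ^ 3 * e * N * G * (c ^ 3 * (0.1723 ^ m) ^ 2) ≤ 1 := by
      have t1 : c ^ 3 * (0.1723 ^ m) ^ 2 = (8 * 0.1723 ^ 2) ^ m := by
        rw [hc, ← pow_mul, mul_comm m 3, pow_mul, ← pow_mul 0.1723, mul_comm m 2, pow_mul,
          ← mul_pow]; norm_num
      have t2 : (8 * 0.1723 ^ 2 : ℝ) ^ m ≤ 0.000000001 ^ σ :=
        dec (by norm_num) (by norm_num) m1 (by norm_num)
      calc a ^ 3 * e * N * G * (c ^ 3 * (0.1723 ^ m) ^ 2)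
          ≤ (8 ^ σ) ^ 3 * 128 ^ σ * 128 ^ σ * 7.5 ^ σ * 0.000000001 ^ σ := by
            rw [← he', ← hG, t1]; gcongr
        _ ≤ 1 := by
            rw [← pow_mul, mul_comm σ 3, pow_mul, ← mul_pow, ← mul_pow, ← mul_pow, ← mul_pow]
            exact pw (by norm_num) (by norm_num) σ
    calc _ = R ^ 3 * (N + N * G * N) * e * (P * f) := by ring
      _ ≤ (4 * (a * c * N)) ^ 3 * (2 * (G * N ^ 2)) * e * (U ^ 2 * P ^ 2 * 0.1723 ^ m) ^ 2 := by
          gcongr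
      _ = 128 * (U ^ 4 * (N * P) ^ 4 * (a ^ 3 * e * N * G * (c ^ 3 * (0.1723 ^ m) ^ 2))) := by
          ring
      _ ≤ 128 * (U ^ 8 * (N * P) ^ 4 * 1) := by gcongr
      _ = _ := by rw [hZ, mul_one]
  have T8' : R ^ 3 * ((cn X k 8 + N * G * N) * cn Y m 8) * (e * f) ≤ 128 * Z := by
    have y1 := xB 8
    have y2 := xC 8
    have y3 : cn X k 8 ≤ N := hN ▸ cn8 k
    have y4 : cn Y m 8 ≤ P := hP ▸ cn8 m
    exact le_trans (by gcongr) T8
  obtain ⟨w, hw⟩ : ∃ w : ℝ, w = (1 / R) ^ 4 / (e * f) := ⟨_, rfl⟩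
  have w0 : 0 ≤ w := by rw [hw]; positivity
  have c0' : ∀ y z : ℝ, y * (e * f) ≤ z → (1 / R) ^ 4 * y ≤ z * w := by
    intro y z h
    calc _ = y * (e * f) * w := by rw [hw]; field_simp
      _ ≤ _ := mul_le_mul_of_nonneg_right h w0
  have c1' : ∀ y z : ℝ, R * y * (e * f) ≤ z → (1 / R) ^ 3 * y ≤ z * w := by
    intro y z h
    calc _ = R * y * (e * f) * w := by rw [hw]; field_simp
      _ ≤ _ := mul_le_mul_of_nonneg_right h w0
  have c2' : ∀ y z : ℝ, R ^ 2 * y * (e * f) ≤ z → (1 / R) ^ 2 * y ≤ z * w := by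
    intro y z h
    calc _ = R ^ 2 * y * (e * f) * w := by rw [hw]; field_simp
      _ ≤ _ := mul_le_mul_of_nonneg_right h w0
  have c3' : ∀ y z : ℝ, R ^ 3 * y * (e * f) ≤ z → (1 / R) * y ≤ z * w := by
    intro y z h
    calc _ = R ^ 3 * y * (e * f) * w := by rw [hw]; field_simp
      _ ≤ _ := mul_le_mul_of_nonneg_right h w0
  constructor
  · have d0 := c0' _ _ T0
    have d1 : (1 / R) ^ 3 / (N * G) * ((cn X k 1 + N * G * N) * cn Y m 1) ≤ 8 * Z * w := by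
      have := c1' _ _ T1
      rw [div_mul_eq_mul_div, div_le_iff₀ (by positivity)]
      linarith
    have d2 := c1' _ _ (T2 _ _ (xB 2) (xC 2) bq2 cq2)
    have d3 := c1' _ _ (T2 _ _ (xB 3) (xC 3) bq3 cq3)
    have d4 := c1' _ _ (T2 _ _ (xB 4) (xC 4) bq4 cq4)
    have d5 := c1' _ _ (T2 _ _ (xB 5) (xC 5) bq5 cq5)
    have d6 := c2' _ _ (T6 _ _ (xB 6) (xC 6) (hN ▸ cn6 k) (hP ▸ cn6 m))
    have d7 := c2' _ _ (T6 _ _ (xB 7) (xC 7) (hN ▸ cn7 k) (hP ▸ cn7 m))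
    have d8 := c3' _ _ T8'
    have zw : 0 ≤ Z * w := by positivity
    have fin : 250 * U ^ 8 * ((N * P * (1 / R)) ^ 4 / (e * f)) = 250 * (Z * w) := by
      rw [hZ, hw]; ring
    rw [fin, Fin.sum_univ_castSucc, Fin.sum_univ_eight]
    refine le_trans (add_le_add (add_le_add (add_le_add (add_le_add (add_le_add (add_le_add
      (add_le_add (add_le_add d0 d1) d2) d3) d4) d5) d6) d7) d8) ?_
    linarith
  · have s1 : R ^ 3 * (N * P) * (e * f) ≤ 250 * Z := by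
      have : R ^ 3 * (N * P) * (e * f) ≤ R ^ 3 * ((N + N * G * N) * P) * (e * f) := by
        have : N ≤ N + N * G * N := le_add_of_nonneg_right (by positivity)
        gcongr
      linarith
    have s2 : 0 < R ^ 3 * (N * P) := by positivity
    refine le_of_mul_le_mul_left ?_ s2
    refine s1.trans (le_of_eq ?_)
    rw [hZ]; field_simp

end Pool.Agent.Lib.UF74
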