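import Pool.Agent.Lib.UF74.E

set_option autoImplicit false
set_option linter.unusedSectionVars false

namespace Pool.Agent.Lib.UF74

open Finset Filter Pool.Agent.Lib.MP_70e206_co

lemma evd (θ c : ℝ) (d : ℕ) (hθ : 1 < θ) (hc : 0 < c) :
    ∀ᶠ m : ℕ in atTop, c * (105 * (m : ℝ) + 1) ^ d ≤ θ ^ m := by
  have h := tendsto_pow_const_div_const_pow_of_one_lt d hθ
  have h2 := h.eventually (gt_mem_nhds (show (0 : ℝ) < 1 / (c * 106 ^ d) by positivity))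
  filter_upwards [h2, eventually_ge_atTop 1] with m hm hm1
  have hθm : 0 < θ ^ m := by positivity
  have hm1' : (1 : ℝ) ≤ m := by exact_mod_cast hm1
  rw [div_lt_div_iff₀ hθm (by positivity)] at hm
  have : (105 * (m : ℝ) + 1) ^ d ≤ (106 * m) ^ d :=
    pow_le_pow_left₀ (by positivity) (by linarith) d
  calc c * (105 * (m : ℝ) + 1) ^ d ≤ c * (106 * m) ^ d := mul_le_mul_of_nonneg_left this hc.le
    _ = (m : ℝ) ^ d * (c * 106 ^ d) := by rw [mul_pow]; ring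
    _ ≤ _ := by linarith

lemma fam (l σ : ℕ) (hσ : 372 ≤ σ) (M : ℝ) (hM : 0 ≤ M)
    (h : M ^ 3 * 960 ^ σ * (250 * (105 * (σ : ℝ) + 1) ^ 8) ^ (l + 1) * 2 ^ (l + 2)
      ≤ (2 ^ (112 * σ)) ^ (l + 1)) :
    ∃ F : Finset (Wd l (Fin (7 * σ)) (Fin (105 * σ))), UFw F ∧ M / 2 ^ (l + 2) ≤ F.card := by
  have s0 : (0 : ℝ) ≤ σ := Nat.cast_nonneg σ
  obtain ⟨U, hU⟩ : ∃ U : ℝ, U = 105 * (σ : ℝ) + 1 := ⟨_, rfl⟩
  rw [← hU] at h
  have U1 : 1 ≤ U := by linarith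
  obtain ⟨k, hB⟩ := blk (X := Fin (7 * σ)) (7 * σ) (Fintype.card_fin _) (by omega) U
    (by push_cast; linarith)
  obtain ⟨m, hC⟩ := blk (X := Fin (105 * σ)) (105 * σ) (Fintype.card_fin _) (by omega) U
    (by push_cast; linarith)
  have N1 := hB.n1
  have N2 := hB.n2
  have P1 := hC.n1
  have k1 := hB.k1
  have hpos : 0 < (layer (Fin (7 * σ)) k).card := by exact_mod_cast (lt_of_lt_of_le one_pos N1)
  obtain ⟨t0, ht0⟩ := Finset.card_pos.mp hpos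
  obtain ⟨g, g1, g2⟩ : ∃ g : ℕ, (layer (Fin (7 * σ)) k).card < 2 ^ (g + 1) ∧
      2 ^ g ≤ (layer (Fin (7 * σ)) k).card :=
    ⟨Nat.log 2 _, Nat.lt_pow_succ_log_self (by norm_num) _, Nat.pow_log_le_self 2 hpos.ne'⟩
  have hr : 2 * (layer (Fin (7 * σ)) k).card * 2 ^ (k + m) ≤ 2 ^ (k + m + g + 2) := by
    calc _ ≤ 2 * 2 ^ (g + 1) * 2 ^ (k + m) :=
          Nat.mul_le_mul_right _ (Nat.mul_le_mul_left _ g1.le)
      _ = _ := by ring
  have hR : (2 : ℝ) ^ (k + m + g + 2) ≤ 4 * (2 ^ k * 2 ^ m * (layer (Fin (7 * σ)) k).card) := by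
    have g3 : (2 : ℝ) ^ g ≤ (layer (Fin (7 * σ)) k).card := by exact_mod_cast g2
    calc (2 : ℝ) ^ (k + m + g + 2) = 4 * (2 ^ k * 2 ^ m * 2 ^ g) := by ring
      _ ≤ _ := by gcongr
  obtain ⟨L1, L2⟩ := level σ k m _ _ U _ hB hC rfl rfl U1 (by positivity) hR
  have hτ : (1 : ℝ) / 2 ^ (k + m + g + 2) = (1 / 2) ^ (k + m + g + 2) := by
    rw [one_div_pow]
  rw [hτ] at L1 L2
  obtain ⟨N, hN⟩ : ∃ N : ℝ, N = (layer (Fin (7 * σ)) k).card := ⟨_, rfl⟩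
  obtain ⟨x, hx⟩ : ∃ x : ℝ, x = (layer (Fin (7 * σ)) k).card * (layer (Fin (105 * σ)) m).card *
    (1 / 2 : ℝ) ^ (k + m + g + 2) := ⟨_, rfl⟩
  have x0 : 0 < x := by
    rw [hx]
    exact mul_pos (mul_pos (by linarith) (by linarith)) (by positivity)
  rw [← hx] at L1 L2
  obtain ⟨K, hK⟩ : ∃ K : ℝ, K = 250 * U ^ 8 := ⟨_, rfl⟩
  have K0 : 0 < K := by rw [hK]; positivity
  obtain ⟨e, he⟩ : ∃ e : ℝ, e = 2 ^ (112 * σ) := ⟨_, rfl⟩
  have e0 : 0 < e := by rw [he]; positivity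
  rw [← hK, ← he] at L1 L2 h
  have G1 : (1 : ℝ) ≤ 7.5 ^ σ := one_le_pow₀ (by norm_num)
  have F1 : (1 : ℝ) ≤ (layer (Fin (7 * σ)) k).card * 7.5 ^ σ := one_le_mul_of_one_le_of_one_le N1 G1
  have F2 : ((layer (Fin (7 * σ)) k).card : ℝ) * 7.5 ^ σ ≤ 960 ^ σ := by
    calc _ ≤ (2 : ℝ) ^ (7 * σ) * 7.5 ^ σ := by gcongr
      _ = _ := by rw [pow_mul, ← mul_pow]; norm_num
  refine build l (k + m + g + 2) k m (by omega) ht0 hr _ (K * (x ^ 4 / e)) x M F1 hM hx x0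
    ((level_sum k m (by positivity) F1).trans L1) ?_ ?_
  · have a1 : e ^ (l + 1) ≤ (K * x ^ 3) ^ (l + 1) := pow_le_pow_left₀ e0.le L2 _
    have a2 : M ^ 3 * K ^ (l + 1) ≤ M ^ 3 * 960 ^ σ * K ^ (l + 1) * 2 ^ (l + 2) := by
      have b1 : (1 : ℝ) ≤ 960 ^ σ := one_le_pow₀ (by norm_num)
      have b2 : (1 : ℝ) ≤ 2 ^ (l + 2) := one_le_pow₀ (by norm_num)
      calc M ^ 3 * K ^ (l + 1) = M ^ 3 * 1 * K ^ (l + 1) * 1 := by ring
        _ ≤ _ := by gcongr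
    have a3 : M ^ 3 * K ^ (l + 1) ≤ (x ^ (l + 1)) ^ 3 * K ^ (l + 1) := by
      refine (a2.trans (h.trans a1)).trans (le_of_eq ?_)
      rw [mul_pow, ← pow_mul, ← pow_mul, mul_comm 3 (l + 1), mul_comm]
    exact le_of_pow_le_pow_left₀ (by norm_num) (by positivity)
      (le_of_mul_le_mul_right a3 (by positivity))
  · have a1 : (K * (x ^ 4 / e)) ^ (l + 1) = K ^ (l + 1) * (x ^ (l + 1)) ^ 4 / e ^ (l + 1) := by
      rw [mul_pow, div_pow, ← pow_mul, ← pow_mul, mul_comm 4 (l + 1), mul_div_assoc]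
    rw [a1]
    have p : 0 < e ^ (l + 1) := by positivity
    calc _ ≤ M ^ 3 * (960 ^ σ * (K ^ (l + 1) * (x ^ (l + 1)) ^ 4 / e ^ (l + 1))) * 2 ^ (l + 2) := by
          gcongr
      _ = (M ^ 3 * 960 ^ σ * K ^ (l + 1) * 2 ^ (l + 2)) / e ^ (l + 1) * (x ^ (l + 1)) ^ 4 := by
          ring
      _ ≤ _ := mul_le_of_le_one_left (by positivity) ((div_le_one p).mpr h)

theorem lower (c : ℝ) (hc1 : 1 < c) (hc : c ^ 3 < 2) : ∀ᶠ n : ℕ in atTop, ∃ m : ℕ, c ^ n < m ∧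
    ∃ A : Fin m → Finset (Fin n), ∀ i j k l : Fin m, i < j → k < l →
      A i ∪ A j = A k ∪ A l → i = k ∧ j = l := by
  have c0 : 0 < c := by linarith
  have y0 : 0 < c ^ 3 / 2 := by positivity
  have y1 : c ^ 3 / 2 < 1 := by linarith
  obtain ⟨l, hl⟩ := exists_pow_lt_of_lt_one (show (0 : ℝ) < 1 / 960 by norm_num) y1
  obtain ⟨D, hD⟩ : ∃ D : ℕ, D = 112 * (l + 1) := ⟨_, rfl⟩
  have D0 : 0 < D := by omega
  have hy : (c ^ 3 / 2) ^ D < 1 / 960 :=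
    lt_of_le_of_lt (pow_le_pow_of_le_one y0.le y1.le (by omega)) hl
  obtain ⟨z, hz⟩ : ∃ z : ℝ, z = c ^ D := ⟨_, rfl⟩
  have z0 : 0 < z := by rw [hz]; positivity
  have hθ : 1 < 2 ^ D / (960 * z ^ 3) := by
    rw [one_lt_div (by positivity)]
    rw [div_pow, div_lt_div_iff₀ (by positivity) (by norm_num), ← pow_mul, mul_comm 3 D, pow_mul,
      ← hz] at hy
    linarith
  have e2 := evd _ ((2 ^ (l + 3) * z) ^ 3 * 250 ^ (l + 1) * 2 ^ (l + 2)) (8 * (l + 1)) hθ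
    (by positivity)
  have hdiv : Tendsto (fun n : ℕ => n / D) atTop atTop := Nat.tendsto_div_const_atTop D0.ne'
  filter_upwards [hdiv.eventually e2, hdiv.eventually (eventually_ge_atTop 372)] with n h1 h2
  obtain ⟨σ, hσ⟩ : ∃ σ, σ = n / D := ⟨_, rfl⟩
  rw [← hσ] at h1 h2
  have n1 : D * σ ≤ n := hσ ▸ Nat.mul_div_le n D
  have n2 : n ≤ D * σ + D := by
    have := Nat.lt_mul_div_succ n D0
    rw [← hσ, mul_add, mul_one] at this
    exact this.le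
  obtain ⟨F, hF, hcard⟩ := fam l σ h2 (2 ^ (l + 3) * z * z ^ σ) (by positivity) (by
    rw [div_pow, le_div_iff₀ (by positivity)] at h1
    refine le_trans (le_of_eq ?_) (h1.trans (le_of_eq ?_))
    · rw [mul_pow 250, mul_pow (960 : ℝ), mul_pow _ (z ^ σ), ← pow_mul z σ, ← pow_mul z 3 σ,
        mul_comm σ 3, ← pow_mul _ 8]
      ring
    · rw [← pow_mul, ← pow_mul, hD]
      congr 1
      ring)
  refine ⟨F.card, ?_, move n ?_ F hF⟩
  · have a1 : c ^ n ≤ z * z ^ σ := by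
      rw [hz, ← pow_mul, ← pow_add]
      exact pow_le_pow_right₀ hc1.le (by omega)
    have a2 : 2 ^ (l + 3) * z * z ^ σ / 2 ^ (l + 2) = 2 * (z * z ^ σ) := by
      rw [pow_succ 2 (l + 2)]; field_simp
    have a3 : 0 < z * z ^ σ := by positivity
    linarith
  · simp only [Fintype.card_fin]
    refine le_trans (le_of_eq ?_) n1
    rw [hD]; ring

end Pool.Agent.Lib.UF74
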